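import Mathlib

/-!
Coupling constants of close II₁ factors: basic constructions with von Neumann algebras
(commutants of sets, conjugation by unitaries, maximal abelian subalgebras, near-unitaries).
-/

set_option autoImplicit false
set_option linter.unusedSectionVars false

open scoped ComplexOrder InnerProductSpace ComplexConjugate
open Filter Topology

noncomputable section

namespace Pool.Agent.U107.CC

variable {H : Type} [NormedAddCommGroup H] [InnerProductSpace ℂ H] [CompleteSpace H]

/-- The commutant of a set of operators and its adjoints. -/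
def cset (S : Set (H →L[ℂ] H)) : VonNeumannAlgebra H where
  toStarSubalgebra := StarSubalgebra.centralizer ℂ S
  centralizer_centralizer' := by
    have h : (StarSubalgebra.centralizer ℂ S).carrier = Set.centralizer (S ∪ star S) := rfl
    rw [h]
    exact Set.centralizer_centralizer_centralizer _

theorem mem_cset {S : Set (H →L[ℂ] H)} {x : H →L[ℂ] H} :
    x ∈ cset S ↔ ∀ s ∈ S, s * x = x * s ∧ star s * x = x * star s := by
  have h : x ∈ cset S ↔ x ∈ Set.centralizer (S ∪ star S) := Iff.rfl
  rw [h]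
  constructor
  · intro hx s hs
    exact ⟨hx s (Or.inl hs), hx (star s) (Or.inr (by simpa using hs))⟩
  · intro hx s hs
    rcases hs with hs | hs
    · exact (hx s hs).1
    · have := (hx (star s) hs).2
      rwa [star_star] at this

theorem mem_cset' {S : Set (H →L[ℂ] H)} (hS : ∀ s ∈ S, star s ∈ S) {x : H →L[ℂ] H} :
    x ∈ cset S ↔ ∀ s ∈ S, s * x = x * s := by
  rw [mem_cset]
  exact ⟨fun h s hs => (h s hs).1, fun h s hs => ⟨h s hs, h _ (hS s hs)⟩⟩

/-- `x` is a unitary operator. -/
def IsU (x : H →L[ℂ] H) : Prop := star x * x = 1 ∧ x * star x = 1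

theorem IsU.adj {x : H →L[ℂ] H} (h : IsU x) : IsU (star x) := by
  refine ⟨?_, ?_⟩ <;> rw [star_star]
  exacts [h.2, h.1]

theorem IsU.mul {x y : H →L[ℂ] H} (hx : IsU x) (hy : IsU y) : IsU (x * y) := by
  refine ⟨?_, ?_⟩
  · rw [star_mul, mul_assoc, ← mul_assoc (Star.star x), hx.1, one_mul, hy.1]
  · rw [star_mul, mul_assoc, ← mul_assoc y, hy.2, one_mul, hx.2]

theorem IsU.one : IsU (1 : H →L[ℂ] H) := by
  refine ⟨?_, ?_⟩ <;> simp

theorem IsU.norm_le {x : H →L[ℂ] H} (h : IsU x) : ‖x‖ ≤ 1 := by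
  have h1 : ‖star x * x‖ = ‖x‖ * ‖x‖ := CStarRing.norm_star_mul_self
  rw [h.1] at h1
  have h2 : ‖(1 : H →L[ℂ] H)‖ ≤ 1 := ContinuousLinearMap.norm_id_le
  nlinarith [norm_nonneg x]

theorem IsU.isUnit {x : H →L[ℂ] H} (h : IsU x) : IsUnit x :=
  ⟨⟨x, Star.star x, h.2, h.1⟩, rfl⟩

theorem norm_conj_le {w x : H →L[ℂ] H} (h : IsU w) : ‖w * x * star w‖ ≤ ‖x‖ := by
  have h1 : ‖w * x * star w‖ ≤ ‖w * x‖ * ‖star w‖ := norm_mul_le _ _
  have h2 : ‖w * x‖ ≤ ‖w‖ * ‖x‖ := norm_mul_le _ _
  have h3 := h.norm_le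
  have h4 := h.adj.norm_le
  have h5 : ‖w * x‖ ≤ ‖x‖ := h2.trans (by nlinarith [norm_nonneg x])
  nlinarith [norm_nonneg (w * x), norm_nonneg (star w)]

/-- `w* N w` for a unitary `w`. -/
def cj (w : H →L[ℂ] H) (N : VonNeumannAlgebra H) : VonNeumannAlgebra H :=
  cset {x | ∃ y ∈ N.commutant, x = star w * y * w}

theorem mem_cj {w : H →L[ℂ] H} (hw : IsU w) {N : VonNeumannAlgebra H} {x : H →L[ℂ] H} :
    x ∈ cj w N ↔ w * x * star w ∈ N := by
  rw [cj, mem_cset']
  · have h1 : w * x * star w ∈ N ↔ w * x * star w ∈ N.commutant.commutant := by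
      rw [VonNeumannAlgebra.commutant_commutant]
    rw [h1, VonNeumannAlgebra.mem_commutant_iff]
    constructor
    · intro h y hy
      have h2 := h _ ⟨y, hy, rfl⟩
      calc y * (w * x * star w) = w * star w * (y * (w * x * star w)) := by rw [hw.2, one_mul]
        _ = w * (star w * y * w * x) * star w := by noncomm_ring
        _ = w * (x * (star w * y * w)) * star w := by rw [h2]
        _ = w * x * star w * y * (w * star w) := by noncomm_ring
        _ = w * x * star w * y := by rw [hw.2, mul_one]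
    · rintro h _ ⟨y, hy, rfl⟩
      have h2 := h y hy
      calc star w * y * w * x = star w * y * w * x * (star w * w) := by rw [hw.1, mul_one]
        _ = star w * (y * (w * x * star w)) * w := by noncomm_ring
        _ = star w * (w * x * star w * y) * w := by rw [h2]
        _ = star w * w * x * (star w * y * w) := by noncomm_ring
        _ = x * (star w * y * w) := by rw [hw.1, one_mul]
  · rintro _ ⟨y, hy, rfl⟩
    refine ⟨star y, star_mem hy, ?_⟩
    rw [star_mul, star_mul, star_star, mul_assoc]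

theorem mem_cj_commutant {w : H →L[ℂ] H} (hw : IsU w) {N : VonNeumannAlgebra H} {x : H →L[ℂ] H} :
    x ∈ (cj w N).commutant ↔ w * x * star w ∈ N.commutant := by
  rw [VonNeumannAlgebra.mem_commutant_iff, VonNeumannAlgebra.mem_commutant_iff]
  constructor
  · intro h y hy
    have h2 := h (star w * y * w) ((mem_cj hw).2 (by
      have : w * (star w * y * w) * star w = y := by
        calc w * (star w * y * w) * star w = (w * star w) * y * (w * star w) := by noncomm_ring
          _ = y := by rw [hw.2, one_mul, mul_one]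
      rwa [this]))
    calc y * (w * x * star w) = w * star w * (y * (w * x * star w)) := by rw [hw.2, one_mul]
        _ = w * (star w * y * w * x) * star w := by noncomm_ring
        _ = w * (x * (star w * y * w)) * star w := by rw [h2]
        _ = w * x * star w * y * (w * star w) := by noncomm_ring
        _ = w * x * star w * y := by rw [hw.2, mul_one]
  · intro h y hy
    have h2 := h _ ((mem_cj hw).1 hy)
    calc y * x = star w * w * y * (star w * w) * x * (star w * w) := by
          rw [hw.1, one_mul, mul_one, mul_one]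
      _ = star w * ((w * y * star w) * (w * x * star w)) * w := by noncomm_ring
      _ = star w * ((w * x * star w) * (w * y * star w)) * w := by rw [h2]
      _ = star w * w * x * (star w * w) * y * (star w * w) := by noncomm_ring
      _ = x * y := by rw [hw.1, one_mul, mul_one, mul_one]

/-- Masas containing a given self-adjoint element. -/
theorem exists_masa (M : VonNeumannAlgebra H) (p : H →L[ℂ] H) (hp : p ∈ M) (hps : star p = p) :
    ∃ A : VonNeumannAlgebra H, (∀ a ∈ A, a ∈ M) ∧ p ∈ A ∧ (∀ a ∈ A, ∀ b ∈ A, a * b = b * a) ∧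
      ∀ x ∈ M, (∀ a ∈ A, a * x = x * a) → x ∈ A := by
  obtain ⟨S, hpS, hmax⟩ := zorn_subset_nonempty
    {S : Set (H →L[ℂ] H) | (∀ s ∈ S, s ∈ M ∧ star s = s) ∧ ∀ s ∈ S, ∀ t ∈ S, s * t = t * s}
    (by
      intro c hc hch hne
      refine ⟨⋃₀ c, ⟨?_, ?_⟩, fun s hs => Set.subset_sUnion_of_mem hs⟩
      · rintro v ⟨s, hs, hv⟩
        exact (hc hs).1 v hv
      · rintro v ⟨s, hs, hv⟩ w ⟨t, ht, hw⟩
        rcases hch.total hs ht with h1 | h1
        · exact (hc ht).2 v (h1 hv) w hw
        · exact (hc hs).2 v hv w (h1 hw)) {p} (by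
      refine ⟨?_, ?_⟩
      · rintro s rfl
        exact ⟨hp, hps⟩
      · rintro s rfl t rfl
        rfl)
  have hS := hmax.prop
  have hmax' : ∀ x ∈ M, star x = x → (∀ s ∈ S, s * x = x * s) → x ∈ S := by
    intro x hx hxs hc
    refine hmax.le_of_ge (y := insert x S) ⟨?_, ?_⟩ (Set.subset_insert x S) (Set.mem_insert x S)
    · rintro s (rfl | hs)
      · exact ⟨hx, hxs⟩
      · exact hS.1 s hs
    · rintro s (rfl | hs) t (rfl | ht)
      · rfl
      · exact (hc t ht).symm
      · exact hc s hs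
      · exact hS.2 s hs t ht
  have hA : ∀ x, x ∈ cset (S ∪ (M.commutant : Set (H →L[ℂ] H))) ↔
      x ∈ M ∧ ∀ s ∈ S, s * x = x * s := by
    intro x
    rw [mem_cset']
    · constructor
      · intro h
        refine ⟨?_, fun s hs => h s (Or.inl hs)⟩
        rw [← VonNeumannAlgebra.commutant_commutant M, VonNeumannAlgebra.mem_commutant_iff]
        exact fun y hy => h y (Or.inr hy)
      · rintro ⟨h1, h2⟩ s (hs | hs)
        · exact h2 s hs
        · rw [← VonNeumannAlgebra.commutant_commutant M, VonNeumannAlgebra.mem_commutant_iff] at h1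
          exact h1 s hs
    · rintro s (hs | hs)
      · left
        rw [(hS.1 s hs).2]
        exact hs
      · right
        exact star_mem (show s ∈ M.commutant from hs)
  refine ⟨cset (S ∪ (M.commutant : Set (H →L[ℂ] H))), fun a ha => ((hA a).1 ha).1, ?_, ?_, ?_⟩
  · rw [hA]
    exact ⟨hp, fun s hs => hS.2 s hs p (hpS rfl)⟩
  · intro a ha b hb
    have hbs : star b ∈ cset (S ∪ (M.commutant : Set (H →L[ℂ] H))) := star_mem hb
    rw [hA] at ha hb hbs
    have h1 : b + star b ∈ S := by
      refine hmax' _ (add_mem hb.1 hbs.1) (by rw [star_add, star_star, add_comm]) ?_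
      intro s hs
      rw [mul_add, add_mul, hb.2 s hs, hbs.2 s hs]
    have h2 : Complex.I • (b - star b) ∈ S := by
      refine hmax' _ ?_ ?_ ?_
      · have : Complex.I • (b - star b) ∈ M.toStarSubalgebra :=
          SMulMemClass.smul_mem _ (sub_mem hb.1 hbs.1)
        exact this
      · rw [star_smul, star_sub, star_star]
        simp only [RCLike.star_def, Complex.conj_I, neg_smul]
        rw [← smul_neg, neg_sub]
      · intro s hs
        rw [mul_smul_comm, smul_mul_assoc, mul_sub, sub_mul, hb.2 s hs, hbs.2 s hs]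
    have h3 := ha.2 _ h1
    have h4 := ha.2 _ h2
    have h5 : (b - star b) * a = a * (b - star b) := by
      rw [mul_smul_comm, smul_mul_assoc] at h4
      exact smul_right_injective _ Complex.I_ne_zero h4
    have h6 : (2 : ℂ) • (a * b) = (2 : ℂ) • (b * a) := by
      have e1 : (2 : ℂ) • (a * b) = a * (b + star b) + a * (b - star b) := by
        rw [two_smul]; noncomm_ring
      have e2 : (2 : ℂ) • (b * a) = (b + star b) * a + (b - star b) * a := by
        rw [two_smul]; noncomm_ring
      rw [e1, e2, h3, h5]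
    exact smul_right_injective _ (two_ne_zero) h6
  · intro x hx hc
    rw [hA]
    refine ⟨hx, fun s hs => hc s ?_⟩
    rw [hA]
    exact ⟨(hS.1 s hs).1, fun t ht => hS.2 t ht s hs⟩

/-- The absolute value. -/
theorem exists_abs (x : H →L[ℂ] H) : ∃ a : H →L[ℂ] H, 0 ≤ a ∧ star a = a ∧ a * a = star x * x ∧
    ∀ y : H →L[ℂ] H, star x * x * y = y * (star x * x) → a * y = y * a := by
  refine ⟨CFC.abs x, CFC.abs_nonneg x, (CFC.abs_nonneg x).isSelfAdjoint.star_eq,
    CFC.abs_mul_abs x, ?_⟩
  intro y h1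
  have h3 : Commute (star x * x) y := h1
  exact (Commute.cfcₙ_nnreal h3 _ : Commute (CFC.abs x) y)

theorem sub_one_le {a : H →L[ℂ] H} (ha : 0 ≤ a) (ξ : H) :
    ‖(a - 1) ξ‖ ≤ ‖(a * a - 1) ξ‖ := by
  set η := (a - 1) ξ with hη
  have h1 : (a * a - 1) ξ = a η + η := by
    rw [hη]
    simp only [sub_apply, mul_apply_eq_comp, map_sub, one_apply_eq_self]
    abel
  have h2 : 0 ≤ (⟪η, a η⟫_ℂ).re := by
    have h := (ContinuousLinearMap.nonneg_iff_isPositive a).1 ha
    have h3 := h.inner_nonneg_right η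
    exact (Complex.le_def.1 h3).1
  have h4 : ‖η‖ ^ 2 ≤ ‖η‖ * ‖a η + η‖ := by
    have h5 : (⟪η, a η + η⟫_ℂ).re ≤ ‖η‖ * ‖a η + η‖ :=
      (Complex.re_le_norm _).trans (norm_inner_le_norm _ _)
    have h6 : (⟪η, a η + η⟫_ℂ).re = (⟪η, a η⟫_ℂ).re + ‖η‖ ^ 2 := by
      rw [inner_add_right, Complex.add_re, inner_self_eq_norm_sq_to_K]
      norm_cast
    linarith
  rw [h1]
  rcases eq_or_lt_of_le (norm_nonneg η) with h | h
  · rw [← h]
    exact norm_nonneg _
  · nlinarith

theorem norm_sub_one_le {a : H →L[ℂ] H} (ha : 0 ≤ a) : ‖a - 1‖ ≤ ‖a * a - 1‖ := by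
  refine ContinuousLinearMap.opNorm_le_bound _ (norm_nonneg _) fun ξ => ?_
  exact (sub_one_le ha ξ).trans ((a * a - 1).le_opNorm ξ)

theorem isUnit_of_sub_one {R : Type} [NormedRing R] [CompleteSpace R] {a : R}
    (h : ‖1 - a‖ < 1) : IsUnit a := by
  have h4 := (Units.oneSub (1 - a) h).isUnit
  rwa [Units.val_oneSub, sub_sub_cancel] at h4

theorem ring_part {R : Type} [Ring R] [StarRing R] (x a b : R) (hx : IsUnit x)
    (has : star a = a) (haa : a * a = star x * x) (hab : a * b = 1) (hba : b * a = 1) :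
    star (x * b) * (x * b) = 1 ∧ (x * b) * star (x * b) = 1 := by
  have hus : star b = b := by
    have e1 : a * star b = 1 := by
      have := congrArg star hba
      rwa [star_mul, star_one, has] at this
    calc star b = b * (a * star b) := by rw [← mul_assoc, hba, one_mul]
      _ = b := by rw [e1, mul_one]
  have hw1 : star (x * b) * (x * b) = 1 := by
    rw [star_mul, hus]
    calc b * star x * (x * b) = b * (star x * x) * b := by
          simp only [mul_assoc]
      _ = (b * a) * (a * b) := by rw [← haa]; simp only [mul_assoc]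
      _ = 1 := by rw [hab, hba, one_mul]
  refine ⟨hw1, ?_⟩
  have hwu : IsUnit (x * b) := hx.mul ⟨⟨b, a, hba, hab⟩, rfl⟩
  obtain ⟨v, hv⟩ := hwu
  rw [← hv] at hw1 ⊢
  have : star (v : R) = ↑v⁻¹ := by
    calc star (v : R) = star (v : R) * (v * ↑v⁻¹) := by
          rw [Units.mul_inv, mul_one]
      _ = ↑v⁻¹ := by rw [← mul_assoc, hw1, one_mul]
  rw [this, Units.mul_inv]

theorem ring_comm {R : Type} [Ring R] (x y a b : R) (hab : a * b = 1) (hba : b * a = 1)
    (h3 : x * y = y * x) (h5 : a * y = y * a) : x * b * y = y * (x * b) := by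
  have h6 : b * y = y * b := by
    calc b * y = b * (y * a) * b := by
          rw [mul_assoc, mul_assoc, hab, mul_one]
      _ = b * (a * y) * b := by rw [h5]
      _ = y * b := by rw [← mul_assoc, hba, one_mul]
  rw [mul_assoc, h6, ← mul_assoc, h3, mul_assoc]

/-- The unitary part of a nearly unitary operator. -/
theorem unitary_part (x : H →L[ℂ] H) (hx : IsUnit x) (c : ℝ) (hc : ‖star x * x - 1‖ ≤ c)
    (hc1 : c < 1) : ∃ a b w : H →L[ℂ] H, 0 ≤ a ∧ star a = a ∧ a * b = 1 ∧ b * a = 1 ∧
      a * a = star x * x ∧ w * a = x ∧ IsU w ∧ ‖w - x‖ ≤ c ∧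
      (∀ y, star x * x * y = y * (star x * x) → a * y = y * a) ∧
      ∀ y, x * y = y * x → star x * y = y * star x → w * y = y * w := by
  obtain ⟨a, ha0, has, haa, hac⟩ := exists_abs x
  have h1 : ‖a - 1‖ ≤ c := (norm_sub_one_le ha0).trans (by rw [haa]; exact hc)
  have h2 : IsUnit a := isUnit_of_sub_one (by rw [norm_sub_rev]; linarith)
  obtain ⟨u, hu⟩ := h2
  obtain ⟨b, hb⟩ : ∃ b : H →L[ℂ] H, b = (u⁻¹ : (H →L[ℂ] H)ˣ) := ⟨_, rfl⟩
  have hab : a * b = 1 := by rw [← hu, hb]; exact Units.mul_inv u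
  have hba : b * a = 1 := by rw [← hu, hb]; exact Units.inv_mul u
  have hw : IsU (x * b) := ring_part x a b hx has haa hab hba
  have hwa : x * b * a = x := by rw [mul_assoc, hba, mul_one]
  have hnorm : ‖x * b - x‖ ≤ c := by
    have e : x * b - x = (x * b) * (1 - a) := by
      rw [mul_sub, mul_one, hwa]
    rw [e]
    refine (norm_mul_le _ _).trans ?_
    have hn : ‖x * b‖ ≤ 1 := IsU.norm_le hw
    rw [norm_sub_rev]
    nlinarith [norm_nonneg (a - 1), norm_nonneg (x * b)]
  refine ⟨a, b, x * b, ha0, has, hab, hba, haa, hwa, hw, hnorm, hac, ?_⟩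
  intro y h3 h4
  exact ring_comm x y a b hab hba h3
    (hac y (by rw [mul_assoc, h3, ← mul_assoc, h4, mul_assoc]))

/-- An operator near a unitary is invertible. -/
theorem isUnit_near {x u : H →L[ℂ] H} (hu : IsU u) (h : ‖x - u‖ < 1) : IsUnit x := by
  have h1 : ‖star u * (u - x)‖ < 1 := by
    refine (norm_mul_le _ _).trans_lt ?_
    have := hu.adj.norm_le
    rw [norm_sub_rev] at h
    nlinarith [norm_nonneg (u - x), norm_nonneg (star u)]
  have h2 : IsUnit (1 - star u * (u - x)) := ⟨Units.oneSub _ h1, rfl⟩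
  have h3 : x = u * (1 - star u * (u - x)) := by
    rw [mul_sub, mul_one, ← mul_assoc, hu.2, one_mul, sub_sub_cancel]
  rw [h3]
  exact hu.isUnit.mul h2

theorem star_mul_near {x u : H →L[ℂ] H} (hu : IsU u) {c : ℝ} (h : ‖x - u‖ ≤ c) (hc : c ≤ 1) :
    ‖star x * x - 1‖ ≤ 3 * c := by
  have e : star x * x - 1 = star (x - u) * x + star u * (x - u) := by
    rw [star_sub, sub_mul, mul_sub, hu.1]
    abel
  rw [e]
  have hx : ‖x‖ ≤ 1 + c := by
    have : x = u + (x - u) := by abel
    rw [this]
    exact (norm_add_le _ _).trans (add_le_add hu.norm_le h)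
  have h0 := norm_nonneg (x - u)
  have hc0 : 0 ≤ c := h0.trans h
  have h1 : ‖star (x - u) * x‖ ≤ c * (1 + c) := by
    refine (norm_mul_le _ _).trans ?_
    rw [norm_star]
    exact mul_le_mul h hx (norm_nonneg _) hc0
  have h2 : ‖star u * (x - u)‖ ≤ 1 * c := by
    refine (norm_mul_le _ _).trans ?_
    exact mul_le_mul hu.adj.norm_le h h0 (by norm_num)
  refine (norm_add_le _ _).trans ?_
  nlinarith

end Pool.Agent.U107.CC
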