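import Mathlib
import Pool.Agent.H804R2.DP.Ulim
import Pool.Agent.U107.CC.Base

/-!
Coupling constants of close II₁ factors: operator valued invariant means on abelian groups of
exponent two.
-/

set_option autoImplicit false
set_option linter.unusedSectionVars false

open scoped ComplexOrder InnerProductSpace ComplexConjugate
open Filter Topology

noncomputable section

namespace Pool.Agent.U107.CC

variable {H : Type} [NormedAddCommGroup H] [InnerProductSpace ℂ H] [CompleteSpace H]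

/-- Boundedness of a family of operators. -/
def Bd {G : Type} (F : G → (H →L[ℂ] H)) : Prop := ∃ C : ℝ, ∀ g, ‖F g‖ ≤ C

/-- An operator valued translation invariant mean on a group. -/
structure OpMean (G : Type) [CommGroup G] (H : Type) [NormedAddCommGroup H]
    [InnerProductSpace ℂ H] [CompleteSpace H] where
  /-- the mean -/
  m : (G → (H →L[ℂ] H)) → (H →L[ℂ] H)
  norm_le : ∀ F C, (∀ g, ‖F g‖ ≤ C) → ‖m F‖ ≤ C
  add : ∀ F F', Bd F → Bd F' → m (fun g => F g + F' g) = m F + m F'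
  mul : ∀ a b F, Bd F → m (fun g => a * F g * b) = a * m F * b
  const : ∀ c, m (fun _ => c) = c
  trans : ∀ F h, Bd F → m (fun g => F (g * h)) = m F
  star_eq : ∀ F, Bd F → m (fun g => star (F g)) = star (m F)
  vec : ∀ (ξ η : H) F c, Bd F → (∀ g, ⟪η, F g ξ⟫_ℂ = c) → ⟪η, m F ξ⟫_ℂ = c
  normal : ∀ ζ : ℕ → H, Summable (fun k => ‖ζ k‖ ^ 2) → ∀ F c, Bd F →
    (∀ g, ∑' k, ⟪ζ k, F g (ζ k)⟫_ℂ = c) → ∑' k, ⟪ζ k, m F (ζ k)⟫_ℂ = c

section fin

variable {G : Type} [CommGroup G]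

theorem exists_fin (h2 : ∀ g : G, g * g = 1) (i : Finset G) :
    ∃ K : Finset G, i ⊆ K ∧ 1 ∈ K ∧ ∀ a ∈ K, ∀ b ∈ K, a * b ∈ K := by
  classical
  induction i using Finset.induction_on with
  | empty => exact ⟨{1}, by simp, by simp, by simp⟩
  | insert a s _ ih =>
    obtain ⟨K, h1, h3, h4⟩ := ih
    refine ⟨K ∪ K.image (fun x => a * x), ?_, ?_, ?_⟩
    · intro x hx
      rw [Finset.mem_insert] at hx
      rcases hx with rfl | hx
      · exact Finset.mem_union_right _ (Finset.mem_image.2 ⟨1, h3, mul_one _⟩)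
      · exact Finset.mem_union_left _ (h1 hx)
    · exact Finset.mem_union_left _ h3
    · intro x hx y hy
      rw [Finset.mem_union, Finset.mem_image] at hx hy
      rw [Finset.mem_union, Finset.mem_image]
      rcases hx with hx | ⟨x', hx, rfl⟩ <;> rcases hy with hy | ⟨y', hy, rfl⟩
      · exact Or.inl (h4 _ hx _ hy)
      · exact Or.inr ⟨x * y', h4 _ hx _ hy, by rw [← mul_assoc, mul_comm a x, mul_assoc]⟩
      · exact Or.inr ⟨x' * y, h4 _ hx _ hy, by rw [mul_assoc]⟩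
      · left
        have : a * x' * (a * y') = x' * y' := by
          calc a * x' * (a * y') = (a * a) * (x' * y') := by
                rw [mul_assoc, ← mul_assoc x', mul_comm x' a, mul_assoc, mul_assoc]
            _ = x' * y' := by rw [h2, one_mul]
        rw [this]
        exact h4 _ hx _ hy

/-- Averages over finite sets. -/
def av (K : Finset G) (F : G → (H →L[ℂ] H)) : H →L[ℂ] H := ((K.card : ℂ)⁻¹) • ∑ g ∈ K, F g

theorem card_inv {K : Finset G} (hK : (1 : G) ∈ K) : (K.card : ℂ)⁻¹ * K.card = 1 := by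
  have : (K.card : ℂ) ≠ 0 := by
    have h := Finset.card_pos.2 ⟨1, hK⟩
    exact_mod_cast h.ne'
  exact inv_mul_cancel₀ this

theorem av_norm {K : Finset G} (hK : (1 : G) ∈ K) {F : G → (H →L[ℂ] H)} {C : ℝ}
    (hF : ∀ g, ‖F g‖ ≤ C) : ‖av K F‖ ≤ C := by
  have h0 : (0 : ℝ) < K.card := by exact_mod_cast Finset.card_pos.2 ⟨1, hK⟩
  rw [av, norm_smul, norm_inv, Complex.norm_natCast]
  have h1 : ‖∑ g ∈ K, F g‖ ≤ K.card * C := by
    refine (norm_sum_le _ _).trans ?_
    refine (Finset.sum_le_sum fun g _ => hF g).trans ?_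
    rw [Finset.sum_const, nsmul_eq_mul]
  rw [inv_mul_le_iff₀ h0]
  exact h1

theorem av_inner (K : Finset G) (F : G → (H →L[ℂ] H)) (ξ η : H) :
    ⟪η, av K F ξ⟫_ℂ = (K.card : ℂ)⁻¹ * ∑ g ∈ K, ⟪η, F g ξ⟫_ℂ := by
  rw [av]
  simp only [smul_apply, inner_smul_right, sum_apply, inner_sum]

theorem av_trans (h2 : ∀ g : G, g * g = 1) {K : Finset G}
    (hK : ∀ a ∈ K, ∀ b ∈ K, a * b ∈ K) (F : G → (H →L[ℂ] H)) {h : G} (hh : h ∈ K) :
    av K (fun g => F (g * h)) = av K F := by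
  rw [av, av]
  congr 1
  refine Finset.sum_nbij' (fun g => g * h) (fun g => g * h) ?_ ?_ ?_ ?_ ?_
  · exact fun g hg => hK _ hg _ hh
  · exact fun g hg => hK _ hg _ hh
  · intro g _
    rw [mul_assoc, h2, mul_one]
  · intro g _
    rw [mul_assoc, h2, mul_one]
  · intro g _
    rfl

end fin

/-- Existence of means. -/
theorem exists_mean (G : Type) [CommGroup G] (h2 : ∀ g : G, g * g = 1) (H : Type)
    [NormedAddCommGroup H] [InnerProductSpace ℂ H] [CompleteSpace H] : Nonempty (OpMean G H) := by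
  classical
  choose K hiK h1K hmK using exists_fin h2
  let U : Ultrafilter (Finset G) := Ultrafilter.of atTop
  have hU : ∀ g : G, ∀ᶠ i in (U : Filter (Finset G)), g ∈ K i := by
    intro g
    have h3 : ∀ᶠ i in (atTop : Filter (Finset G)), g ∈ K i := by
      filter_upwards [eventually_ge_atTop {g}] with i hi
      exact hiK i (hi (Finset.mem_singleton_self g))
    exact (Ultrafilter.of_le atTop) h3
  have hne : (U : Filter (Finset G)).NeBot := U.neBot
  have hex : ∀ F : G → (H →L[ℂ] H), ∃ S : H →L[ℂ] H, Bd F → ∀ ξ η : H,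
      Tendsto (fun i => ⟪η, av (K i) F ξ⟫_ℂ) U (𝓝 ⟪η, S ξ⟫_ℂ) := by
    intro F
    by_cases hF : Bd F
    · obtain ⟨C, hC⟩ := hF
      obtain ⟨S, _, hS⟩ := H710R2.DP.dp_ulim H (Finset G) U (fun i => av (K i) F) C
        (fun i => av_norm (h1K i) hC)
      exact ⟨S, fun _ => hS⟩
    · exact ⟨0, fun h => absurd h hF⟩
  choose m hm using hex
  have huniq : ∀ S S' : H →L[ℂ] H, (∀ ξ η : H, ⟪η, S ξ⟫_ℂ = ⟪η, S' ξ⟫_ℂ) → S = S' := by
    intro S S' h
    ext ξ
    exact ext_inner_left ℂ fun η => h ξ η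
  have hbound : ∀ (F : G → (H →L[ℂ] H)) (C : ℝ), (∀ g, ‖F g‖ ≤ C) → ‖m F‖ ≤ C := by
    intro F C hF
    have hC : 0 ≤ C := (norm_nonneg _).trans (hF 1)
    obtain ⟨S, hS1, hS⟩ := H710R2.DP.dp_ulim H (Finset G) U (fun i => av (K i) F) C
        (fun i => av_norm (h1K i) hF)
    have : m F = S := huniq _ _ fun ξ η => tendsto_nhds_unique (hm F ⟨C, hF⟩ ξ η) (hS ξ η)
    rwa [this]
  refine ⟨⟨m, hbound, ?_, ?_, ?_, ?_, ?_, ?_, ?_⟩⟩
  · intro F F' hF hF'
    refine huniq _ _ fun ξ η => ?_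
    have hFF : Bd (fun g => F g + F' g) := by
      obtain ⟨C, hC⟩ := hF
      obtain ⟨C', hC'⟩ := hF'
      exact ⟨C + C', fun g => (norm_add_le _ _).trans (add_le_add (hC g) (hC' g))⟩
    refine tendsto_nhds_unique (hm _ hFF ξ η) ?_
    rw [add_apply, inner_add_right]
    refine ((hm F hF ξ η).add (hm F' hF' ξ η)).congr fun i => ?_
    rw [av_inner, av_inner, av_inner, ← mul_add, ← Finset.sum_add_distrib]
    congr 1
    refine Finset.sum_congr rfl fun g _ => ?_
    rw [add_apply, inner_add_right]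
  · intro a b F hF
    refine huniq _ _ fun ξ η => ?_
    have hFF : Bd (fun g => a * F g * b) := by
      obtain ⟨C, hC⟩ := hF
      refine ⟨‖a‖ * C * ‖b‖, fun g => (norm_mul_le _ _).trans ?_⟩
      exact mul_le_mul_of_nonneg_right ((norm_mul_le _ _).trans
        (mul_le_mul_of_nonneg_left (hC g) (norm_nonneg _))) (norm_nonneg _)
    refine tendsto_nhds_unique (hm _ hFF ξ η) ?_
    have e : ⟪η, (a * m F * b) ξ⟫_ℂ = ⟪star a η, m F (b ξ)⟫_ℂ := by
      rw [ContinuousLinearMap.star_eq_adjoint, ContinuousLinearMap.adjoint_inner_left]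
      rfl
    rw [e]
    refine (hm F hF (b ξ) (star a η)).congr fun i => ?_
    rw [av_inner, av_inner]
    congr 1
    refine Finset.sum_congr rfl fun g _ => ?_
    rw [ContinuousLinearMap.star_eq_adjoint, ContinuousLinearMap.adjoint_inner_left]
    rfl
  · intro c
    refine huniq _ _ fun ξ η => ?_
    refine tendsto_nhds_unique (hm _ ⟨‖c‖, fun _ => le_rfl⟩ ξ η) ?_
    refine tendsto_const_nhds.congr fun i => ?_
    rw [av_inner, Finset.sum_const, nsmul_eq_mul, ← mul_assoc, card_inv (h1K i), one_mul]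
  · intro F h hF
    refine huniq _ _ fun ξ η => ?_
    have hFF : Bd (fun g => F (g * h)) := by
      obtain ⟨C, hC⟩ := hF
      exact ⟨C, fun g => hC _⟩
    refine tendsto_nhds_unique (hm _ hFF ξ η) ?_
    refine (hm F hF ξ η).congr' ?_
    filter_upwards [hU h] with i hi
    rw [av_trans h2 (hmK i) F hi]
  · intro F hF
    refine huniq _ _ fun ξ η => ?_
    have hFF : Bd (fun g => star (F g)) := by
      obtain ⟨C, hC⟩ := hF
      exact ⟨C, fun g => by rw [norm_star]; exact hC _⟩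
    refine tendsto_nhds_unique (hm _ hFF ξ η) ?_
    have e : ⟪η, (star (m F)) ξ⟫_ℂ = conj ⟪ξ, m F η⟫_ℂ := by
      rw [inner_conj_symm, ContinuousLinearMap.star_eq_adjoint,
        ContinuousLinearMap.adjoint_inner_right]
    rw [e]
    have h3 := (Complex.continuous_conj.tendsto _).comp (hm F hF η ξ)
    refine h3.congr fun i => ?_
    simp only [Function.comp_apply]
    rw [av_inner, av_inner, map_mul, map_inv₀, map_sum]
    congr 1
    · simp
    · refine Finset.sum_congr rfl fun g _ => ?_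
      rw [inner_conj_symm, ContinuousLinearMap.star_eq_adjoint,
        ContinuousLinearMap.adjoint_inner_right]
  · intro ξ η F c hF hc
    refine tendsto_nhds_unique (hm F hF ξ η) ?_
    refine tendsto_const_nhds.congr fun i => ?_
    rw [av_inner, Finset.sum_congr rfl fun g _ => hc g, Finset.sum_const, nsmul_eq_mul,
      ← mul_assoc, card_inv (h1K i), one_mul]
  · intro ζ hζ F c hF hc
    obtain ⟨C, hC⟩ := hF
    have hC0 : 0 ≤ C := (norm_nonneg _).trans (hC 1)
    have hb : ∀ (T : H →L[ℂ] H) (k : ℕ), ‖T‖ ≤ C → ‖⟪ζ k, T (ζ k)⟫_ℂ‖ ≤ C * ‖ζ k‖ ^ 2 := by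
      intro T k hT
      calc ‖⟪ζ k, T (ζ k)⟫_ℂ‖ ≤ ‖ζ k‖ * ‖T (ζ k)‖ := norm_inner_le_norm _ _
        _ ≤ ‖ζ k‖ * (C * ‖ζ k‖) := by
            refine mul_le_mul_of_nonneg_left ?_ (norm_nonneg _)
            exact (T.le_opNorm _).trans (mul_le_mul_of_nonneg_right hT (norm_nonneg _))
        _ = C * ‖ζ k‖ ^ 2 := by ring
    have hs : Summable fun k => C * ‖ζ k‖ ^ 2 := hζ.mul_left C
    have hsum : ∀ T : H →L[ℂ] H, ‖T‖ ≤ C → Summable fun k => ⟪ζ k, T (ζ k)⟫_ℂ := fun T hT =>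
      Summable.of_norm_bounded hs fun k => hb T k hT
    have hlim : Tendsto (fun i => ∑' k, ⟪ζ k, av (K i) F (ζ k)⟫_ℂ) U
        (𝓝 (∑' k, ⟪ζ k, m F (ζ k)⟫_ℂ)) := by
      refine tendsto_tsum_of_dominated_convergence hs (fun k => hm F ⟨C, hC⟩ (ζ k) (ζ k)) ?_
      exact Eventually.of_forall fun i k => hb _ k (av_norm (h1K i) hC)
    refine tendsto_nhds_unique hlim ?_
    refine tendsto_const_nhds.congr fun i => ?_
    have h4 : ∀ k, ⟪ζ k, av (K i) F (ζ k)⟫_ℂ =
        ((K i).card : ℂ)⁻¹ * ∑ g ∈ K i, ⟪ζ k, F g (ζ k)⟫_ℂ := fun k => av_inner _ _ _ _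
    simp only [h4]
    rw [tsum_mul_left, Summable.tsum_finsetSum (fun g _ => hsum (F g) (hC g)),
      Finset.sum_congr rfl fun g _ => hc g, Finset.sum_const, nsmul_eq_mul,
      ← mul_assoc, card_inv (h1K i), one_mul]

variable {G : Type} [CommGroup G]

theorem OpMean.mem (μ : OpMean G H) (P : VonNeumannAlgebra H) (F : G → (H →L[ℂ] H)) (hF : Bd F)
    (h : ∀ g, F g ∈ P) : μ.m F ∈ P := by
  rw [← VonNeumannAlgebra.commutant_commutant P, VonNeumannAlgebra.mem_commutant_iff]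
  intro y hy
  have hy' : ∀ x ∈ P, x * y = y * x := VonNeumannAlgebra.mem_commutant_iff.1 hy
  have h1 := μ.mul y 1 F hF
  have h2 := μ.mul 1 y F hF
  simp only [mul_one, one_mul] at h1 h2
  rw [← h1, ← h2]
  congr 1
  funext g
  exact (hy' _ (h g)).symm

theorem OpMean.comm (μ : OpMean G H) (y : H →L[ℂ] H) (F : G → (H →L[ℂ] H)) (hF : Bd F)
    (h : ∀ g, F g * y = y * F g) : μ.m F * y = y * μ.m F := by
  have h1 := μ.mul y 1 F hF
  have h2 := μ.mul 1 y F hF
  simp only [mul_one, one_mul] at h1 h2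
  rw [← h1, ← h2]
  congr 1
  funext g
  exact h g

theorem OpMean.mul_left (μ : OpMean G H) (y : H →L[ℂ] H) (F : G → (H →L[ℂ] H)) (hF : Bd F) :
    μ.m (fun g => y * F g) = y * μ.m F := by
  have h1 := μ.mul y 1 F hF
  simpa only [mul_one] using h1

theorem OpMean.mul_right (μ : OpMean G H) (y : H →L[ℂ] H) (F : G → (H →L[ℂ] H)) (hF : Bd F) :
    μ.m (fun g => F g * y) = μ.m F * y := by
  have h1 := μ.mul 1 y F hF
  simpa only [one_mul] using h1

theorem Bd.mul {F F' : G → (H →L[ℂ] H)} (hF : Bd F) (hF' : Bd F') : Bd fun g => F g * F' g := by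
  obtain ⟨C, hC⟩ := hF
  obtain ⟨C', hC'⟩ := hF'
  refine ⟨C * C', fun g => (norm_mul_le _ _).trans ?_⟩
  exact mul_le_mul (hC g) (hC' g) (norm_nonneg _) ((norm_nonneg _).trans (hC g))

theorem Bd.add {F F' : G → (H →L[ℂ] H)} (hF : Bd F) (hF' : Bd F') : Bd fun g => F g + F' g := by
  obtain ⟨C, hC⟩ := hF
  obtain ⟨C', hC'⟩ := hF'
  exact ⟨C + C', fun g => (norm_add_le _ _).trans (add_le_add (hC g) (hC' g))⟩

theorem Bd.const (c : H →L[ℂ] H) : Bd fun _ : G => c := ⟨‖c‖, fun _ => le_rfl⟩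

theorem OpMean.neg (μ : OpMean G H) (F : G → (H →L[ℂ] H)) (hF : Bd F) :
    μ.m (fun g => - F g) = - μ.m F := by
  have h1 := μ.mul_left (-1) F hF
  simpa only [neg_mul, one_mul] using h1

theorem OpMean.sub (μ : OpMean G H) (F F' : G → (H →L[ℂ] H)) (hF : Bd F) (hF' : Bd F') :
    μ.m (fun g => F g - F' g) = μ.m F - μ.m F' := by
  have hn : Bd fun g => - F' g := by
    obtain ⟨C, hC⟩ := hF'
    exact ⟨C, fun g => by rw [norm_neg]; exact hC g⟩
  have h1 := μ.add F (fun g => - F' g) hF hn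
  rw [μ.neg F' hF'] at h1
  simpa only [← sub_eq_add_neg] using h1

/-- The mean of a family near a constant is near the constant. -/
theorem OpMean.near (μ : OpMean G H) (F : G → (H →L[ℂ] H)) (c : H →L[ℂ] H) (C : ℝ)
    (h : ∀ g, ‖F g - c‖ ≤ C) : ‖μ.m F - c‖ ≤ C := by
  have hF : Bd F := ⟨‖c‖ + C, fun g => by
    have : F g = c + (F g - c) := by abel
    rw [this]
    exact (norm_add_le _ _).trans (add_le_add le_rfl (h g))⟩
  have h1 := μ.sub F (fun _ => c) hF (Bd.const c)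
  rw [μ.const] at h1
  rw [← h1]
  exact μ.norm_le _ _ h

end Pool.Agent.U107.CC
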