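import Mathlib
import Pool.Agent.U107.CC.Mean

/-!
Coupling constants of close II₁ factors: an abelian group of exponent two of unitaries near a von
Neumann algebra `P` is conjugate into `P` by a unitary near `1` (Kazhdan's averaging).
-/

set_option autoImplicit false
set_option linter.unusedSectionVars false

open scoped ComplexOrder InnerProductSpace ComplexConjugate
open Filter Topology

noncomputable section

namespace Pool.Agent.U107.CC

variable {H : Type} [NormedAddCommGroup H] [InnerProductSpace ℂ H] [CompleteSpace H]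
variable {G : Type} [CommGroup G]

/-- An almost homomorphism into the unitaries of `P`. -/
structure Ap (P : VonNeumannAlgebra H) (ρ : G → (H →L[ℂ] H)) (ε : ℝ) : Prop where
  mem : ∀ g, ρ g ∈ P
  uni : ∀ g, IsU (ρ g)
  dft : ∀ g h, ‖ρ (g * h) - ρ g * ρ h‖ ≤ ε

theorem norm_mul_le' {x y : H →L[ℂ] H} {a b : ℝ} (hx : ‖x‖ ≤ a) (hy : ‖y‖ ≤ b) :
    ‖x * y‖ ≤ a * b :=
  (norm_mul_le _ _).trans (mul_le_mul hx hy (norm_nonneg _) ((norm_nonneg _).trans hx))

theorem mem_of_comm {P : VonNeumannAlgebra H} {x : H →L[ℂ] H}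
    (h : ∀ y, (∀ z ∈ P, z * y = y * z) → x * y = y * x) : x ∈ P := by
  rw [← VonNeumannAlgebra.commutant_commutant P, VonNeumannAlgebra.mem_commutant_iff]
  intro y hy
  exact (h y (VonNeumannAlgebra.mem_commutant_iff.1 hy)).symm

theorem Ap.step (h2 : ∀ g : G, g * g = 1) (μ : OpMean G H) {P : VonNeumannAlgebra H}
    {ρ : G → (H →L[ℂ] H)} {ε : ℝ} (hρ : Ap P ρ ε) (hε : 0 ≤ ε) (hε1 : ε ≤ 1 / 32) :
    ∃ ρ' : G → (H →L[ℂ] H), Ap P ρ' (ε / 2) ∧ ∀ g, ‖ρ' g - ρ g‖ ≤ 2 * ε := by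
  obtain ⟨a, ha⟩ : ∃ a : G → G → (H →L[ℂ] H), ∀ h g, a h g = star (ρ h) * ρ (h * g) :=
    ⟨_, fun _ _ => rfl⟩
  have han : ∀ h g, ‖a h g - ρ g‖ ≤ ε := by
    intro h g
    have e : a h g - ρ g = star (ρ h) * (ρ (h * g) - ρ h * ρ g) := by
      rw [ha, mul_sub, ← mul_assoc (star (ρ h)), (hρ.uni h).1, one_mul]
    rw [e]
    exact (norm_mul_le' (hρ.uni h).adj.norm_le (hρ.dft h g)).trans (by rw [one_mul])
  have ha1 : ∀ h g, ‖a h g‖ ≤ 1 := by
    intro h g
    rw [ha]
    exact (norm_mul_le' (hρ.uni h).adj.norm_le (hρ.uni _).norm_le).trans (by rw [one_mul])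
  have haB : ∀ g, Bd fun h => a h g := fun g => ⟨1, fun h => ha1 h g⟩
  have hmul : ∀ h g k, a h g * a (h * g) k = a h (g * k) := by
    intro h g k
    rw [ha, ha, ha, mul_assoc, ← mul_assoc (ρ (h * g)), (hρ.uni _).2, one_mul, mul_assoc]
  obtain ⟨σ, hσ⟩ : ∃ σ : G → (H →L[ℂ] H), ∀ g, σ g = μ.m (fun h => a h g) :=
    ⟨_, fun _ => rfl⟩
  have hσρ : ∀ g, ‖σ g - ρ g‖ ≤ ε := fun g => by
    rw [hσ]
    exact μ.near _ _ _ fun h => han h g
  have hσ1 : ∀ g, ‖σ g‖ ≤ 1 := fun g => by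
    rw [hσ]
    exact μ.norm_le _ _ fun h => ha1 h g
  have haσ : ∀ h g, ‖a h g - σ g‖ ≤ 2 * ε := by
    intro h g
    have e : a h g - σ g = (a h g - ρ g) - (σ g - ρ g) := by abel
    rw [e]
    refine (norm_sub_le _ _).trans ?_
    linarith [han h g, hσρ g]
  have hkey : ∀ g k, ‖σ (g * k) - σ g * σ k‖ ≤ 4 * ε ^ 2 := by
    intro g k
    have e1 : (fun h => (a h g - σ g) * (a (h * g) k - σ k)) =
        fun h => (a h (g * k) - a h g * σ k) - (σ g * a (h * g) k - σ g * σ k) := by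
      funext h
      rw [← hmul]
      noncomm_ring
    have hB2 : Bd fun h => a (h * g) k := ⟨1, fun h => ha1 _ _⟩
    have e2 : μ.m (fun h => (a h g - σ g) * (a (h * g) k - σ k)) = σ (g * k) - σ g * σ k := by
      rw [e1, μ.sub _ _ _ _, μ.sub _ _ _ _, μ.sub _ _ _ _, μ.mul_right _ _ (haB g),
        μ.mul_left _ _ hB2, μ.const, ← hσ, ← hσ]
      · have e3 : μ.m (fun h => a (h * g) k) = σ k := by
          rw [hσ]
          exact μ.trans (fun h => a h k) g (haB k)
        rw [e3, sub_self, sub_zero]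
      · exact (Bd.const _).mul hB2
      · exact Bd.const _
      · exact haB _
      · exact (haB g).mul (Bd.const _)
      · exact ⟨2, fun h => (norm_sub_le _ _).trans (by
          have h3 := ha1 h (g * k)
          have h4 := norm_mul_le' (ha1 h g) (hσ1 k)
          linarith)⟩
      · exact ⟨2, fun h => (norm_sub_le _ _).trans (by
          have h3 := norm_mul_le' (hσ1 g) (ha1 (h * g) k)
          have h4 := norm_mul_le' (hσ1 g) (hσ1 k)
          linarith)⟩
    rw [← e2]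
    refine μ.norm_le _ _ fun h => ?_
    refine (norm_mul_le' (haσ h g) (haσ (h * g) k)).trans ?_
    nlinarith
  have hσs : ∀ g, star (σ g) = σ g := by
    intro g
    rw [hσ, ← μ.star_eq _ (haB g)]
    have hF : Bd fun h => star (ρ (h * g)) * ρ h := ⟨1, fun h =>
      (norm_mul_le' (hρ.uni _).adj.norm_le (hρ.uni h).norm_le).trans (by rw [one_mul])⟩
    have e1 := μ.trans (fun h => star (ρ (h * g)) * ρ h) g hF
    have e2 : (fun h => star (a h g)) = fun h => star (ρ (h * g)) * ρ h := by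
      funext h
      rw [ha, star_mul, star_star]
    rw [e2, ← e1]
    congr 1
    funext h
    rw [ha, mul_assoc, h2, mul_one]
  have hσ11 : σ 1 = 1 := by
    rw [hσ]
    have : (fun h => a h 1) = fun _ => (1 : H →L[ℂ] H) := by
      funext h
      rw [ha, mul_one, (hρ.uni h).1]
    rw [this, μ.const]
  have hσσ : ∀ g, ‖star (σ g) * σ g - 1‖ ≤ 4 * ε ^ 2 := by
    intro g
    rw [hσs, ← hσ11, ← h2 g, norm_sub_rev]
    exact hkey g g
  have hlt : 4 * ε ^ 2 < 1 := by nlinarith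
  have hmemσ : ∀ g, σ g ∈ P := fun g => by
    rw [hσ]
    refine μ.mem P _ (haB g) fun h => ?_
    rw [ha]
    exact mul_mem (star_mem (hρ.mem h)) (hρ.mem _)
  have hex : ∀ g, ∃ w : H →L[ℂ] H, w ∈ P ∧ IsU w ∧ ‖w - σ g‖ ≤ 4 * ε ^ 2 := by
    intro g
    obtain ⟨_, _, w, _, _, _, _, _, _, hw, hwn, _, hwc⟩ := unitary_part (σ g)
      (isUnit_near (hρ.uni g) ((hσρ g).trans_lt (by linarith))) _ (hσσ g) hlt
    refine ⟨w, mem_of_comm fun y hy => hwc y (hy _ (hmemσ g)) (hy _ (star_mem (hmemσ g))), hw, hwn⟩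
  choose w hwP hwU hwn using hex
  refine ⟨w, ⟨hwP, hwU, ?_⟩, ?_⟩
  · intro g k
    have e : w (g * k) - w g * w k = (w (g * k) - σ (g * k)) + (σ (g * k) - σ g * σ k) +
        ((σ g - w g) * σ k + w g * (σ k - w k)) := by noncomm_ring
    rw [e]
    have h3 : ‖(σ g - w g) * σ k‖ ≤ 4 * ε ^ 2 * 1 := norm_mul_le' (by
      rw [norm_sub_rev]; exact hwn g) (hσ1 k)
    have h4 : ‖w g * (σ k - w k)‖ ≤ 1 * (4 * ε ^ 2) := norm_mul_le' (hwU g).norm_le (by
      rw [norm_sub_rev]; exact hwn k)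
    have h5 := norm_add_le ((w (g * k) - σ (g * k)) + (σ (g * k) - σ g * σ k))
      ((σ g - w g) * σ k + w g * (σ k - w k))
    have h6 := norm_add_le (w (g * k) - σ (g * k)) (σ (g * k) - σ g * σ k)
    have h7 := norm_add_le ((σ g - w g) * σ k) (w g * (σ k - w k))
    have h8 := hwn (g * k)
    have h9 := hkey g k
    nlinarith
  · intro g
    have e : w g - ρ g = (w g - σ g) + (σ g - ρ g) := by abel
    rw [e]
    have h5 := norm_add_le (w g - σ g) (σ g - ρ g)
    have h8 := hwn g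
    have h9 := hσρ g
    nlinarith

theorem isClosed_vn (P : VonNeumannAlgebra H) : IsClosed (P : Set (H →L[ℂ] H)) := by
  rw [← VonNeumannAlgebra.centralizer_centralizer]
  exact Set.isClosed_centralizer _

theorem Ap.limit (h2 : ∀ g : G, g * g = 1) (μ : OpMean G H) {P : VonNeumannAlgebra H}
    {ρ : G → (H →L[ℂ] H)} {ε : ℝ} (hρ : Ap P ρ ε) (hε : 0 ≤ ε) (hε1 : ε ≤ 1 / 32) :
    ∃ π : G → (H →L[ℂ] H), Ap P π 0 ∧ ∀ g, ‖π g - ρ g‖ ≤ 4 * ε := by
  have hs : ∀ (δ : ℝ) (ρ' : G → (H →L[ℂ] H)), ∃ ρ'' : G → (H →L[ℂ] H), Ap P ρ' δ → 0 ≤ δ →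
      δ ≤ 1 / 32 → Ap P ρ'' (δ / 2) ∧ ∀ g, ‖ρ'' g - ρ' g‖ ≤ 2 * δ := by
    intro δ ρ'
    by_cases h : Ap P ρ' δ ∧ 0 ≤ δ ∧ δ ≤ 1 / 32
    · obtain ⟨ρ'', h3⟩ := Ap.step h2 μ h.1 h.2.1 h.2.2
      exact ⟨ρ'', fun _ _ _ => h3⟩
    · exact ⟨ρ', fun h3 h4 h5 => absurd ⟨h3, h4, h5⟩ h⟩
  choose f hf using hs
  obtain ⟨r, hr0, hrs⟩ : ∃ r : ℕ → G → (H →L[ℂ] H), r 0 = ρ ∧
      ∀ n, r (n + 1) = f (ε / 2 ^ n) (r n) :=
    ⟨fun n => Nat.rec ρ (fun n x => f (ε / 2 ^ n) x) n, rfl, fun n => rfl⟩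
  have hsmall : ∀ n : ℕ, 0 ≤ ε / 2 ^ n ∧ ε / 2 ^ n ≤ 1 / 32 := by
    intro n
    refine ⟨by positivity, ?_⟩
    have : ε / 2 ^ n ≤ ε := div_le_self hε (one_le_pow₀ (by norm_num))
    linarith
  have hAp : ∀ n, Ap P (r n) (ε / 2 ^ n) := by
    intro n
    induction n with
    | zero => simpa [hr0] using hρ
    | succ n ih =>
      rw [hrs]
      have := (hf _ _ ih (hsmall n).1 (hsmall n).2).1
      have e : ε / 2 ^ (n + 1) = ε / 2 ^ n / 2 := by
        rw [pow_succ]; field_simp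
      rwa [e]
  have hd : ∀ g n, dist (r n g) (r (n + 1) g) ≤ 4 * ε / 2 / 2 ^ n := by
    intro g n
    rw [dist_comm, dist_eq_norm, hrs]
    have := (hf _ _ (hAp n) (hsmall n).1 (hsmall n).2).2 g
    refine this.trans (le_of_eq ?_)
    ring
  have hlim : ∀ g, ∃ a, Tendsto (fun n => r n g) atTop (𝓝 a) := fun g =>
    cauchySeq_tendsto_of_complete (cauchySeq_of_le_geometric_two (hd g))
  choose π hπ using hlim
  refine ⟨π, ⟨?_, ?_, ?_⟩, ?_⟩
  · intro g
    exact (isClosed_vn P).mem_of_tendsto (hπ g) (Eventually.of_forall fun n => (hAp n).mem g)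
  · intro g
    refine ⟨?_, ?_⟩
    · refine tendsto_nhds_unique (((continuous_star.tendsto _).comp (hπ g)).mul (hπ g)) ?_
      exact tendsto_const_nhds.congr fun n => (((hAp n).uni g).1).symm
    · refine tendsto_nhds_unique ((hπ g).mul ((continuous_star.tendsto _).comp (hπ g))) ?_
      exact tendsto_const_nhds.congr fun n => (((hAp n).uni g).2).symm
  · intro g h
    have h3 : Tendsto (fun n => ‖r n (g * h) - r n g * r n h‖) atTop
        (𝓝 ‖π (g * h) - π g * π h‖) := ((hπ (g * h)).sub ((hπ g).mul (hπ h))).norm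
    have h4 : Tendsto (fun n : ℕ => ε / 2 ^ n) atTop (𝓝 0) := by
      have h5 := (tendsto_pow_atTop_nhds_zero_of_lt_one (r := (1 / 2 : ℝ)) (by norm_num)
        (by norm_num)).const_mul ε
      rw [mul_zero] at h5
      refine h5.congr fun n => ?_
      rw [one_div, inv_pow, div_eq_mul_inv]
    exact le_of_tendsto_of_tendsto' h3 h4 fun n => (hAp n).dft g h
  · intro g
    have h3 := dist_le_of_le_geometric_two_of_tendsto₀ (hd g) (hπ g)
    rw [dist_comm, dist_eq_norm, hr0] at h3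
    exact h3

/-- A representation of an abelian group of exponent two by unitaries near `P` is conjugate to one
in `P`, by a unitary near `1`. -/
theorem perturb (h2 : ∀ g : G, g * g = 1) (P : VonNeumannAlgebra H) (U : G → (H →L[ℂ] H))
    (hU1 : U 1 = 1) (hUm : ∀ g h, U (g * h) = U g * U h) (hUs : ∀ g, star (U g) = U g)
    (γ : ℝ) (hγ : 0 ≤ γ) (hγ1 : γ ≤ 1 / 1000) (hn : ∀ g, ∃ y ∈ P, ‖y - U g‖ ≤ γ) :
    ∃ w : H →L[ℂ] H, IsU w ∧ ‖w - 1‖ ≤ 300 * γ ∧ (∀ g, w * U g * star w ∈ P) ∧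
      ∀ y, (∀ x ∈ P, x * y = y * x) → (∀ g, U g * y = y * U g) → w * y = y * w := by
  obtain ⟨μ⟩ := exists_mean G h2 H
  have hUU : ∀ g, IsU (U g) := fun g => by
    have : U g * U g = 1 := by rw [← hUm, h2, hU1]
    exact ⟨by rw [hUs, this], by rw [hUs, this]⟩
  have hex : ∀ g, ∃ w : H →L[ℂ] H, w ∈ P ∧ IsU w ∧ ‖w - U g‖ ≤ 4 * γ := by
    intro g
    obtain ⟨y, hyP, hyn⟩ := hn g
    obtain ⟨_, _, w, _, _, _, _, _, _, hw, hwn, _, hwc⟩ := unitary_part y
      (isUnit_near (hUU g) (hyn.trans_lt (by linarith))) _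
      (star_mul_near (hUU g) hyn (by linarith)) (by linarith)
    refine ⟨w, mem_of_comm fun z hz => hwc z (hz _ hyP) (hz _ (star_mem hyP)), hw, ?_⟩
    have e : w - U g = (w - y) + (y - U g) := by abel
    rw [e]
    refine (norm_add_le _ _).trans ?_
    linarith
  choose ρ hρP hρU hρn using hex
  have hAp : Ap P ρ (12 * γ) := by
    refine ⟨hρP, hρU, fun g h => ?_⟩
    have e : ρ (g * h) - ρ g * ρ h = (ρ (g * h) - U (g * h)) +
        ((U g - ρ g) * U h + ρ g * (U h - ρ h)) := by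
      rw [hUm]; noncomm_ring
    rw [e]
    have h3 : ‖(U g - ρ g) * U h‖ ≤ 4 * γ * 1 := norm_mul_le' (by
      rw [norm_sub_rev]; exact hρn g) (hUU h).norm_le
    have h4 : ‖ρ g * (U h - ρ h)‖ ≤ 1 * (4 * γ) := norm_mul_le' (hρU g).norm_le (by
      rw [norm_sub_rev]; exact hρn h)
    have h5 := norm_add_le (ρ (g * h) - U (g * h)) ((U g - ρ g) * U h + ρ g * (U h - ρ h))
    have h7 := norm_add_le ((U g - ρ g) * U h) (ρ g * (U h - ρ h))
    have h8 := hρn (g * h)
    linarith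
  obtain ⟨π, hπ, hπn⟩ := hAp.limit h2 μ (by positivity) (by linarith)
  have hπU : ∀ g, ‖π g - U g‖ ≤ 52 * γ := by
    intro g
    have e : π g - U g = (π g - ρ g) + (ρ g - U g) := by abel
    rw [e]
    refine (norm_add_le _ _).trans ?_
    linarith [hπn g, hρn g]
  have hπm : ∀ g h, π (g * h) = π g * π h := fun g h =>
    sub_eq_zero.1 (norm_le_zero_iff.1 (hπ.dft g h))
  have hπ1 : π 1 = 1 := by
    have h3 : π 1 = π 1 * π 1 := by rw [← hπm, mul_one]
    calc π 1 = star (π 1) * π 1 * π 1 := by rw [(hπ.uni 1).1, one_mul]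
      _ = star (π 1) * π 1 := by rw [mul_assoc, ← h3]
      _ = 1 := (hπ.uni 1).1
  have hπs : ∀ g, star (π g) = π g := by
    intro g
    calc star (π g) = star (π g) * (π g * π g) := by rw [← hπm, h2, hπ1, mul_one]
      _ = π g := by rw [← mul_assoc, (hπ.uni g).1, one_mul]
  have hBT : Bd fun g => π g * U g := ⟨1, fun g =>
    (norm_mul_le' (hπ.uni g).norm_le (hUU g).norm_le).trans (by rw [one_mul])⟩
  obtain ⟨T, hT⟩ : ∃ T, T = μ.m (fun g => π g * U g) := ⟨_, rfl⟩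
  have hTn : ‖T - 1‖ ≤ 52 * γ := by
    rw [hT]
    refine μ.near _ _ _ fun g => ?_
    have e : π g * U g - 1 = (π g - U g) * U g := by
      rw [sub_mul, ← hUm, h2, hU1]
    rw [e]
    exact (norm_mul_le' (hπU g) (hUU g).norm_le).trans (by rw [mul_one])
  have hTi : ∀ h, T * U h = π h * T := by
    intro h
    rw [hT, ← μ.mul_right _ _ hBT, ← μ.mul_left _ _ hBT]
    have hF : Bd fun g => π (g * h) * U g := ⟨1, fun g =>
      (norm_mul_le' (hπ.uni _).norm_le (hUU g).norm_le).trans (by rw [one_mul])⟩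
    have e1 := μ.trans (fun g => π (g * h) * U g) h hF
    have e2 : (fun g => π g * U g * U h) = fun g => π (g * h * h) * U (g * h) := by
      funext g
      rw [mul_assoc g h h, h2, mul_one, hUm, mul_assoc]
    have e3 : (fun g => π h * (π g * U g)) = fun g => π (g * h) * U g := by
      funext g
      rw [mul_comm g h, hπm, mul_assoc]
    rw [e2, e1, e3]
  have hTi' : ∀ h, star T * π h = U h * star T := by
    intro h
    have := congrArg star (hTi h)
    rw [star_mul, star_mul, hUs, hπs] at this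
    exact this.symm
  have hTu : IsUnit T := isUnit_near IsU.one (hTn.trans_lt (by linarith))
  obtain ⟨a, b, w, _, _, hab, hba, haa, hwa, hw, hwn, hac, hwc⟩ := unitary_part T hTu _
    (star_mul_near IsU.one hTn (by linarith)) (by linarith)
  have hwπ : ∀ h, w * U h = π h * w := by
    intro h
    have h3 : star T * T * U h = U h * (star T * T) := by
      rw [mul_assoc, hTi, ← mul_assoc, hTi', mul_assoc]
    have h4 := hac _ h3
    calc w * U h = w * U h * (a * b) := by rw [hab, mul_one]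
      _ = w * (U h * a) * b := by simp only [mul_assoc]
      _ = w * a * U h * b := by rw [← h4]; simp only [mul_assoc]
      _ = π h * (w * a) * b := by rw [hwa, hTi]
      _ = π h * w := by rw [mul_assoc, mul_assoc, hab, mul_one]
  refine ⟨w, hw, ?_, ?_, ?_⟩
  · have e : w - 1 = (w - T) + (T - 1) := by abel
    rw [e]
    refine (norm_add_le _ _).trans ?_
    linarith
  · intro h
    rw [hwπ, mul_assoc, hw.2, mul_one]
    exact hπ.mem h
  · intro y hy hyU
    refine hwc y ?_ ?_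
    · rw [hT]
      refine μ.comm y _ hBT fun g => ?_
      rw [mul_assoc, hyU, ← mul_assoc, hy _ (hπ.mem g), mul_assoc]
    · have hBS : Bd fun g => star (π g * U g) := ⟨1, fun g => by
        rw [norm_star]
        exact (norm_mul_le' (hπ.uni g).norm_le (hUU g).norm_le).trans (by rw [one_mul])⟩
      rw [hT, ← μ.star_eq _ hBT]
      refine μ.comm y _ hBS fun g => ?_
      rw [star_mul, hπs, hUs, mul_assoc, hy _ (hπ.mem g), ← mul_assoc, hyU, mul_assoc]

end Pool.Agent.U107.CC
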