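import Mathlib
import Pool.Agent.H666R2.DP.Z1
import Pool.Agent.H372R2.DP.Z2
import Pool.Agent.H445R2.Kad4.Range
import Pool.Agent.U107.CC.Kaz

/-!
Coupling constants of close II₁ factors: abelian von Neumann algebras near a von Neumann algebra
`P` are conjugate into `P` by a unitary near `1`.
-/

set_option autoImplicit false
set_option linter.unusedSectionVars false

open scoped ComplexOrder InnerProductSpace ComplexConjugate
open Filter Topology

noncomputable section

namespace Pool.Agent.U107.CC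

variable {H : Type} [NormedAddCommGroup H] [InnerProductSpace ℂ H] [CompleteSpace H]

/-- Elements of abelian von Neumann algebras are limits of combinations of projections. -/
theorem ab_span (B : VonNeumannAlgebra H) (hB : ∀ a ∈ B, ∀ b ∈ B, a * b = b * a)
    (x : H →L[ℂ] H) (hx : x ∈ B) (ε : ℝ) (hε : 0 < ε) :
    ∃ (n : ℕ) (c : Fin n → ℂ) (p : Fin n → (H →L[ℂ] H)),
      (∀ k, p k ∈ B ∧ star (p k) = p k ∧ p k * p k = p k) ∧ ‖x - ∑ k, c k • p k‖ ≤ ε := by
  obtain ⟨n, c, p, hp, hn⟩ := H710R2.DP.dp_span (H710R2.DP.dp_bin H759R2.Kad.prove5_range) H B x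
    ⟨hx, fun a ha => hB x hx a ha⟩ ε hε
  exact ⟨n, c, p, fun k => ⟨(hp k).2.1, (hp k).1.1, (hp k).1.2⟩, hn⟩

/-- Commuting with all symmetries implies commuting. -/
theorem comm_of_sym (B : VonNeumannAlgebra H) (hB : ∀ a ∈ B, ∀ b ∈ B, a * b = b * a)
    (z : H →L[ℂ] H) (hz : ∀ s ∈ B, star s = s → s * s = 1 → s * z = z * s) :
    ∀ x ∈ B, x * z = z * x := by
  intro x hx
  have hp : ∀ p ∈ B, star p = p → p * p = p → p * z = z * p := by
    intro p hp h1 h2
    have h3 := hz (1 - (2 : ℂ) • p) (sub_mem (one_mem _)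
      (SMulMemClass.smul_mem (S := StarSubalgebra ℂ (H →L[ℂ] H)) (s := B.toStarSubalgebra)
        (2 : ℂ) hp)) (by
        rw [star_sub, star_one, star_smul, h1]
        simp) (by
        rw [sub_mul, one_mul, mul_sub, mul_one, smul_mul_smul_comm, h2, two_smul]
        norm_num
        module)
    rw [sub_mul, mul_sub, one_mul, mul_one, smul_mul_assoc, mul_smul_comm] at h3
    exact smul_right_injective _ (two_ne_zero) (sub_right_injective h3)
  have hsmall : ∀ ε : ℝ, 0 < ε → ‖x * z - z * x‖ ≤ ε := by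
    intro ε hε
    obtain ⟨n, c, p, hpp, hn⟩ := ab_span B hB x hx (ε / (2 * (‖z‖ + 1))) (by positivity)
    obtain ⟨S, hS⟩ : ∃ S, S = ∑ k, c k • p k := ⟨_, rfl⟩
    rw [← hS] at hn
    have hSz : S * z = z * S := by
      rw [hS, Finset.sum_mul, Finset.mul_sum]
      refine Finset.sum_congr rfl fun k _ => ?_
      rw [smul_mul_assoc, mul_smul_comm, hp _ (hpp k).1 (hpp k).2.1 (hpp k).2.2]
    have e : x * z - z * x = (x - S) * z - z * (x - S) := by
      rw [sub_mul, mul_sub, hSz]; abel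
    rw [e]
    have h1 := norm_mul_le (x - S) z
    have h2 := norm_mul_le z (x - S)
    have h3 := norm_sub_le ((x - S) * z) (z * (x - S))
    have h4 : ‖x - S‖ * (2 * (‖z‖ + 1)) ≤ ε := by
      rwa [le_div_iff₀ (by positivity)] at hn
    nlinarith [norm_nonneg z, norm_nonneg (x - S)]
  have h0 : ‖x * z - z * x‖ ≤ 0 := le_of_forall_pos_le_add fun ε hε => by
    rw [zero_add]
    exact hsmall ε hε
  exact sub_eq_zero.1 (norm_le_zero_iff.1 h0)

/-- The symmetries of a von Neumann algebra. -/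
abbrev Sym (B : VonNeumannAlgebra H) : Type :=
  {s : H →L[ℂ] H // s ∈ B ∧ star s = s ∧ s * s = 1}

/-- The group of symmetries of an abelian von Neumann algebra. -/
abbrev symGroup (B : VonNeumannAlgebra H) (hB : ∀ a ∈ B, ∀ b ∈ B, a * b = b * a) :
    CommGroup (Sym B) where
  mul s t := ⟨s.1 * t.1, mul_mem s.2.1 t.2.1, by
    rw [star_mul, s.2.2.1, t.2.2.1, hB _ t.2.1 _ s.2.1], by
    rw [mul_assoc, ← mul_assoc t.1, hB _ t.2.1 _ s.2.1, mul_assoc, t.2.2.2, mul_one, s.2.2.2]⟩
  mul_assoc s t u := Subtype.ext (mul_assoc s.1 t.1 u.1)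
  one := ⟨1, one_mem _, star_one _, one_mul _⟩
  one_mul s := Subtype.ext (one_mul s.1)
  mul_one s := Subtype.ext (mul_one s.1)
  inv s := s
  inv_mul_cancel s := Subtype.ext s.2.2.2
  mul_comm s t := Subtype.ext (hB _ s.2.1 _ t.2.1)

/-- Abelian von Neumann algebras near `P`. -/
theorem perturb_ab (P B : VonNeumannAlgebra H) (hB : ∀ a ∈ B, ∀ b ∈ B, a * b = b * a)
    (γ : ℝ) (hγ : 0 ≤ γ) (hγ1 : γ ≤ 1 / 1000)
    (hn : ∀ x ∈ B, ‖x‖ ≤ 1 → ∃ y ∈ P, ‖y - x‖ ≤ γ) :
    ∃ w : H →L[ℂ] H, IsU w ∧ ‖w - 1‖ ≤ 300 * γ ∧ (∀ x ∈ B, w * x * star w ∈ P) ∧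
      ∀ y, (∀ x ∈ P, x * y = y * x) → (∀ x ∈ B, x * y = y * x) → w * y = y * w := by
  letI := symGroup B hB
  have hmul : ∀ s t : Sym B, (s * t).1 = s.1 * t.1 := fun _ _ => rfl
  have hone : ((1 : Sym B)).1 = 1 := rfl
  obtain ⟨w, hw, hwn, hwP, hwc⟩ := perturb (G := Sym B) (fun s => Subtype.ext s.2.2.2) P
    (fun s => s.1) hone hmul (fun s => s.2.2.1) γ hγ hγ1 (fun s => hn s.1 s.2.1
      (IsU.norm_le ⟨by rw [s.2.2.1, s.2.2.2], by rw [s.2.2.1, s.2.2.2]⟩))
  refine ⟨w, hw, hwn, ?_, fun y h1 h2 => hwc y h1 fun s => h2 s.1 s.2.1⟩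
  intro x hx
  refine mem_of_comm fun y hy => ?_
  have h3 := comm_of_sym B hB (star w * y * w) (fun s hs h4 h5 => by
    have h6 := hy _ (hwP ⟨s, hs, h4, h5⟩)
    simp only at h6
    calc s * (star w * y * w) = (star w * w) * s * (star w * y * w) := by rw [hw.1, one_mul]
      _ = star w * (w * s * star w * y) * w := by simp only [mul_assoc]
      _ = star w * (y * (w * s * star w)) * w := by rw [h6]
      _ = star w * y * w * s * (star w * w) := by simp only [mul_assoc]
      _ = star w * y * w * s := by rw [hw.1, mul_one]) x hx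
  calc w * x * star w * y = w * x * star w * y * (w * star w) := by rw [hw.2, mul_one]
    _ = w * (x * (star w * y * w)) * star w := by simp only [mul_assoc]
    _ = w * (star w * y * w * x) * star w := by rw [h3]
    _ = (w * star w) * y * (w * x * star w) := by simp only [mul_assoc]
    _ = y * (w * x * star w) := by rw [hw.2, one_mul]

end Pool.Agent.U107.CC
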