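import Mathlib
import Pool.Agent.H759R2.Kad.Assemble4
import Pool.Agent.H710R2.DP.Final
import Pool.Agent.U107.CC.Ab

/-!
Coupling constants of close II₁ factors: II₁ factors with a normal trace, given by a functional
on all bounded operators; commutants of close II₁ factors are close.
-/

set_option autoImplicit false
set_option linter.unusedSectionVars false

open scoped ComplexOrder InnerProductSpace ComplexConjugate
open Filter Topology

noncomputable section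

namespace Pool.Agent.U107.CC

variable {H : Type} [NormedAddCommGroup H] [InnerProductSpace ℂ H] [CompleteSpace H]

/-- `M` is a II₁ factor and the restriction of `φ` to `M` is a faithful normal trace. -/
structure Fac (M : VonNeumannAlgebra H) (φ : (H →L[ℂ] H) → ℂ) : Prop where
  seq : ∃ ζ : ℕ → H, Summable (fun k => ‖ζ k‖ ^ 2) ∧ ∀ x, φ x = ∑' k, ⟪ζ k, x (ζ k)⟫_ℂ
  one : φ 1 = 1
  comm : ∀ x ∈ M, ∀ y ∈ M, φ (x * y) = φ (y * x)
  faithful : ∀ x ∈ M, φ (star x * x) = 0 → x = 0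
  center : ∀ z ∈ M, (∀ a ∈ M, z * a = a * z) → ∃ c : ℂ, z = c • 1
  infinite : ¬ FiniteDimensional ℂ M.toStarSubalgebra

theorem summ {ζ : ℕ → H} (hζ : Summable (fun k => ‖ζ k‖ ^ 2)) (x : H →L[ℂ] H) :
    Summable fun k => ⟪ζ k, x (ζ k)⟫_ℂ := by
  refine Summable.of_norm_bounded (hζ.mul_left ‖x‖) fun k => ?_
  calc ‖⟪ζ k, x (ζ k)⟫_ℂ‖ ≤ ‖ζ k‖ * ‖x (ζ k)‖ := norm_inner_le_norm _ _
    _ ≤ ‖ζ k‖ * (‖x‖ * ‖ζ k‖) := by
        refine mul_le_mul_of_nonneg_left ?_ (norm_nonneg _)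
        exact x.le_opNorm _
    _ = ‖x‖ * ‖ζ k‖ ^ 2 := by ring

variable {M : VonNeumannAlgebra H} {φ : (H →L[ℂ] H) → ℂ}

theorem Fac.add (h : Fac M φ) (x y : H →L[ℂ] H) : φ (x + y) = φ x + φ y := by
  obtain ⟨ζ, hζ, hφ⟩ := h.seq
  rw [hφ, hφ, hφ, ← (summ hζ x).tsum_add (summ hζ y)]
  refine tsum_congr fun k => ?_
  rw [add_apply, inner_add_right]

theorem Fac.smul (h : Fac M φ) (c : ℂ) (x : H →L[ℂ] H) : φ (c • x) = c * φ x := by
  obtain ⟨ζ, hζ, hφ⟩ := h.seq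
  rw [hφ, hφ, ← tsum_mul_left]
  refine tsum_congr fun k => ?_
  rw [smul_apply, inner_smul_right]

/-- The functional as a linear map. -/
def Fac.lin (h : Fac M φ) : (H →L[ℂ] H) →ₗ[ℂ] ℂ where
  toFun := φ
  map_add' := h.add
  map_smul' c x := by rw [h.smul, RingHom.id_apply, smul_eq_mul]

theorem Fac.sub (h : Fac M φ) (x y : H →L[ℂ] H) : φ (x - y) = φ x - φ y :=
  map_sub h.lin x y

theorem Fac.zero (h : Fac M φ) : φ 0 = 0 := map_zero h.lin

theorem Fac.sum (h : Fac M φ) {ι : Type} (s : Finset ι) (f : ι → (H →L[ℂ] H)) :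
    φ (∑ i ∈ s, f i) = ∑ i ∈ s, φ (f i) := map_sum h.lin f s

theorem Fac.nonneg (h : Fac M φ) (x : H →L[ℂ] H) : 0 ≤ φ (star x * x) := by
  obtain ⟨ζ, hζ, hφ⟩ := h.seq
  rw [hφ]
  refine tsum_nonneg fun k => ?_
  have e : ⟪ζ k, (star x * x) (ζ k)⟫_ℂ = ⟪x (ζ k), x (ζ k)⟫_ℂ := by
    rw [mul_apply_eq_comp, ContinuousLinearMap.star_eq_adjoint,
      ContinuousLinearMap.adjoint_inner_right]
  have e2 : ⟪x (ζ k), x (ζ k)⟫_ℂ = ((‖x (ζ k)‖ ^ 2 : ℝ) : ℂ) := by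
    rw [inner_self_eq_norm_sq_to_K]
    norm_cast
  rw [e, e2]
  exact Complex.zero_le_real.2 (sq_nonneg _)

theorem Fac.bound (h : Fac M φ) (x : H →L[ℂ] H) : ‖φ x‖ ≤ ‖x‖ := by
  obtain ⟨ζ, hζ, hφ⟩ := h.seq
  have h1 : ∑' k, ‖ζ k‖ ^ 2 = 1 := by
    have h2 := h.one
    rw [hφ] at h2
    have h3 : ∀ k, ⟪ζ k, (1 : H →L[ℂ] H) (ζ k)⟫_ℂ = ((‖ζ k‖ ^ 2 : ℝ) : ℂ) := by
      intro k
      rw [one_apply_eq_self, inner_self_eq_norm_sq_to_K]
      norm_cast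
    simp only [h3] at h2
    rw [← Complex.ofReal_tsum] at h2
    exact_mod_cast h2
  rw [hφ]
  have hb : ∀ k, ‖⟪ζ k, x (ζ k)⟫_ℂ‖ ≤ ‖x‖ * ‖ζ k‖ ^ 2 := by
    intro k
    calc ‖⟪ζ k, x (ζ k)⟫_ℂ‖ ≤ ‖ζ k‖ * ‖x (ζ k)‖ := norm_inner_le_norm _ _
      _ ≤ ‖ζ k‖ * (‖x‖ * ‖ζ k‖) := by
          refine mul_le_mul_of_nonneg_left ?_ (norm_nonneg _)
          exact x.le_opNorm _
      _ = ‖x‖ * ‖ζ k‖ ^ 2 := by ring
  have h4 : ‖∑' k, ⟪ζ k, x (ζ k)⟫_ℂ‖ ≤ ∑' k, ‖x‖ * ‖ζ k‖ ^ 2 :=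
    tsum_of_norm_bounded (hζ.mul_left ‖x‖).hasSum hb
  rwa [tsum_mul_left, h1, mul_one] at h4

/-- The trace as a functional on the algebra. -/
def Fac.tau (h : Fac M φ) : M.toStarSubalgebra →ₗ[ℂ] ℂ where
  toFun x := φ (x : H →L[ℂ] H)
  map_add' x y := h.add _ _
  map_smul' c x := h.smul _ _

theorem Fac.isII1 (h : Fac M φ) : H759R2.Kad.IsII1 M h.tau where
  center := h.center
  infinite := h.infinite
  trace := by
    refine ⟨h.one, fun a => h.nonneg _, fun a b => h.comm _ a.2 _ b.2⟩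
  faithful a ha := Subtype.ext (h.faithful _ a.2 ha)

theorem comp : H759R2.Kad.F_comp.{0} :=
  H759R2.Kad.prove5_comp H759R2.Kad.prove5_join H759R2.Kad.prove5_polar H759R2.Kad.prove5_chain

theorem nomin : H759R2.Kad.F_nomin.{0} :=
  H759R2.Kad.prove5_nomin H759R2.Kad.prove5_range comp

/-- Matrix units of size `2 ^ k` in a II₁ factor. -/
theorem Fac.units (h : Fac M φ) (k : ℕ) : ∃ e : Fin (2 ^ k) → Fin (2 ^ k) → (H →L[ℂ] H),
    H710R2.DP.MU M 1 (2 ^ k) e := by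
  have hmu : H710R2.DP.V_mu := H710R2.DP.dp_Vmu (H710R2.DP.dp_Vhalf
    (H710R2.DP.dp_Vab H710R2.DP.dp_Vsupp H759R2.Kad.prove5_polar H710R2.DP.fin_bin)
    H759R2.Kad.prove5_chain)
  refine hmu H M 1 (one_mem _) ⟨star_one _, one_mul _⟩ ?_ k
  intro e he hpr _ hab
  by_contra hne
  obtain ⟨q, hq, hqp, heq, hq0, hqe⟩ := nomin H M h.tau h.isII1 e he hpr hne
  obtain ⟨z, hz, hzn⟩ := hab q hq (1 / 4) (by norm_num)
  obtain ⟨c, hc⟩ := h.center z hz.1 hz.2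
  have hqe' : q * e = q := by
    have := congrArg star heq
    rwa [star_mul, hqp.1, hpr.1] at this
  rw [heq, hqe', hc, smul_mul_assoc, one_mul] at hzn
  have hqn : ‖q‖ ≤ 1 := by
    have h1 : ‖star q * q‖ = ‖q‖ * ‖q‖ := CStarRing.norm_star_mul_self
    rw [hqp.1, hqp.2] at h1
    nlinarith [norm_nonneg q]
  have hprn : ∀ r : H →L[ℂ] H, star r = r → r * r = r → r ≠ 0 → ‖r‖ = 1 := by
    intro r h1 h2 h3
    have h4 : ‖star r * r‖ = ‖r‖ * ‖r‖ := CStarRing.norm_star_mul_self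
    rw [h1, h2] at h4
    have h5 : ‖r‖ ≠ 0 := norm_ne_zero_iff.2 h3
    field_simp at h4
    linarith
  have h1 : ‖q * (q - c • e)‖ ≤ 1 / 4 := by
    refine (norm_mul_le _ _).trans ?_
    nlinarith [norm_nonneg q, norm_nonneg (q - c • e)]
  have h2 : q * (q - c • e) = (1 - c) • q := by
    rw [mul_sub, hqp.2, mul_smul_comm, hqe', sub_smul, one_smul]
  rw [h2, norm_smul, hprn q hqp.1 hqp.2 hq0, mul_one] at h1
  have hr1 : star (e - q) = e - q := by rw [star_sub, hpr.1, hqp.1]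
  have hr2 : (e - q) * (e - q) = e - q := by
    rw [sub_mul, mul_sub, mul_sub, hpr.2, heq, hqe', hqp.2]
    abel
  have hr3 : e - q ≠ 0 := fun h3 => hqe (sub_eq_zero.1 h3).symm
  have h3 : ‖(e - q) * (q - c • e)‖ ≤ 1 / 4 := by
    refine (norm_mul_le _ _).trans ?_
    rw [hprn _ hr1 hr2 hr3, one_mul]
    exact hzn
  have h4 : (e - q) * (q - c • e) = (-c) • (e - q) := by
    rw [mul_sub, mul_smul_comm, sub_mul, sub_mul, heq, hqp.2, hpr.2, hqe', sub_self, zero_sub,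
      neg_smul]
  rw [h4, norm_smul, hprn _ hr1 hr2 hr3, mul_one, norm_neg] at h3
  have h5 : (1 : ℝ) ≤ ‖1 - c‖ + ‖c‖ := by
    have : ‖(1 : ℂ)‖ ≤ ‖1 - c‖ + ‖c‖ := by
      have e : (1 : ℂ) = (1 - c) + c := by ring
      calc ‖(1 : ℂ)‖ = ‖(1 - c) + c‖ := by rw [← e]
        _ ≤ _ := norm_add_le _ _
    simpa using this
  linarith

/-- The constant in the commutant estimate. -/
def KK : ℝ := 216 * 2 ^ 23

/-- Operators almost commuting with a II₁ factor are near its commutant. -/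
theorem Fac.near_comm (h : Fac M φ) (z : H →L[ℂ] H) (c : ℝ) (hc : 0 ≤ c)
    (hz : ∀ y ∈ M, ‖z * y - y * z‖ ≤ c * ‖y‖) : ∃ t ∈ M.commutant, ‖t - z‖ ≤ KK * c := by
  let D : M.toStarSubalgebra →ₗ[ℂ] (H →L[ℂ] H) :=
    { toFun := fun y => z * (y : H →L[ℂ] H) - (y : H →L[ℂ] H) * z
      map_add' := fun x y => by
        simp only [AddMemClass.coe_add, mul_add, add_mul]
        abel
      map_smul' := fun r x => by
        simp only [SetLike.val_smul, RingHom.id_apply, mul_smul_comm, smul_mul_assoc, smul_sub] }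
  obtain ⟨T, hT, hTD⟩ := H759R2.Kad.class_inner M.toStarSubalgebra
    (H759R2.Kad.final_class H M h.tau h.isII1) H M.toStarSubalgebra.subtype D (fun a b => by
      change z * ((a : H →L[ℂ] H) * b) - ((a : H →L[ℂ] H) * b) * z =
        (a : H →L[ℂ] H) * (z * b - b * z) + (z * a - a * z) * (b : H →L[ℂ] H)
      noncomm_ring) c hc (fun a => hz _ a.2)
  refine ⟨z - T, ?_, ?_⟩
  · rw [VonNeumannAlgebra.mem_commutant_iff]
    intro g hg
    have h1 := hTD ⟨g, hg⟩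
    change z * g - g * z = T * g - g * T at h1
    rw [mul_sub, sub_mul]
    have h2 : g * z - g * T = z * g - T * g := by
      have h3 : (g * z - g * T) - (z * g - T * g) = (T * g - g * T) - (z * g - g * z) := by abel
      rw [h1, sub_self] at h3
      exact sub_eq_zero.1 h3
    exact h2
  · rw [sub_sub_cancel_left, norm_neg]
    exact hT

/-- `M` is contained in `N` up to `δ`. -/
def Near (M N : VonNeumannAlgebra H) (δ : ℝ) : Prop :=
  ∀ x ∈ M, ‖x‖ ≤ 1 → ∃ y ∈ N, ‖y - x‖ ≤ δ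

theorem Near.scale {M N : VonNeumannAlgebra H} {δ : ℝ} (h : Near M N δ) (x : H →L[ℂ] H)
    (hx : x ∈ M) : ∃ y ∈ N, ‖y - x‖ ≤ δ * ‖x‖ := by
  rcases eq_or_ne x 0 with h0 | h0
  · subst h0
    exact ⟨0, zero_mem _, by simp⟩
  · have hn : 0 < ‖x‖ := norm_pos_iff.2 h0
    obtain ⟨y, hy, hyn⟩ := h (((‖x‖⁻¹ : ℝ) : ℂ) • x)
      (SMulMemClass.smul_mem (S := StarSubalgebra ℂ (H →L[ℂ] H)) (s := M.toStarSubalgebra) _ hx)
      (by
        rw [norm_smul, Complex.norm_real, norm_inv, norm_norm, inv_mul_cancel₀ hn.ne'])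
    refine ⟨((‖x‖ : ℝ) : ℂ) • y,
      SMulMemClass.smul_mem (S := StarSubalgebra ℂ (H →L[ℂ] H)) (s := N.toStarSubalgebra) _ hy, ?_⟩
    have e : ((‖x‖ : ℝ) : ℂ) • y - x = ((‖x‖ : ℝ) : ℂ) • (y - ((‖x‖⁻¹ : ℝ) : ℂ) • x) := by
      rw [smul_sub, smul_smul, ← Complex.ofReal_mul, mul_inv_cancel₀ hn.ne', Complex.ofReal_one,
        one_smul]
    rw [e, norm_smul, Complex.norm_real, norm_norm, mul_comm δ]
    exact mul_le_mul_of_nonneg_left hyn (norm_nonneg _)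

/-- Commutants of close II₁ factors are close. -/
theorem Fac.near_commutant {M N : VonNeumannAlgebra H} {ψ : (H →L[ℂ] H) → ℂ} (hN : Fac N ψ)
    {δ : ℝ} (hδ : 0 ≤ δ) (h : Near N M δ) : Near M.commutant N.commutant (KK * (2 * δ)) := by
  intro z hz hz1
  refine hN.near_comm z (2 * δ) (by positivity) fun y hy => ?_
  obtain ⟨x, hx, hxn⟩ := h.scale y hy
  have hc : x * z = z * x := VonNeumannAlgebra.mem_commutant_iff.1 hz x hx
  have e : z * y - y * z = (x - y) * z - z * (x - y) := by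
    rw [sub_mul, mul_sub, hc]; abel
  rw [e]
  have h1 := norm_mul_le' hxn hz1
  have h2 := norm_mul_le' hz1 hxn
  have h3 := norm_sub_le ((x - y) * z) (z * (x - y))
  linarith

end Pool.Agent.U107.CC
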