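import Mathlib
import Pool.Agent.U107.CC.Fac

/-!
Coupling constants of close II₁ factors: nearby projections in close II₁ factors have the same
trace.
-/

set_option autoImplicit false
set_option linter.unusedSectionVars false

open scoped ComplexOrder InnerProductSpace ComplexConjugate
open Filter Topology

noncomputable section

namespace Pool.Agent.U107.CC

variable {H : Type} [NormedAddCommGroup H] [InnerProductSpace ℂ H] [CompleteSpace H]

/-- Projection. -/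
def IsP (p : H →L[ℂ] H) : Prop := star p = p ∧ p * p = p

theorem IsP.norm_le {p : H →L[ℂ] H} (h : IsP p) : ‖p‖ ≤ 1 := by
  have h1 : ‖star p * p‖ = ‖p‖ * ‖p‖ := CStarRing.norm_star_mul_self
  rw [h.1, h.2] at h1
  nlinarith [norm_nonneg p]

/-- The abelian von Neumann algebra generated by commuting self-adjoint elements. -/
theorem exists_ab (M : VonNeumannAlgebra H) (S : Set (H →L[ℂ] H))
    (hS : ∀ s ∈ S, s ∈ M ∧ star s = s) (hc : ∀ s ∈ S, ∀ t ∈ S, s * t = t * s) :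
    ∃ B : VonNeumannAlgebra H, (∀ x ∈ B, x ∈ M) ∧ (∀ s ∈ S, s ∈ B) ∧
      (∀ a ∈ B, ∀ b ∈ B, a * b = b * a) ∧
      ∀ y, (∀ s ∈ S, s * y = y * s) → ∀ x ∈ B, x * y = y * x := by
  have hS' : ∀ s ∈ S, star s ∈ S := fun s hs => by rwa [(hS s hs).2]
  have hm : ∀ x, x ∈ (cset S).commutant ↔ ∀ y, (∀ s ∈ S, s * y = y * s) → x * y = y * x := by
    intro x
    rw [VonNeumannAlgebra.mem_commutant_iff]
    exact ⟨fun h y hy => (h y ((mem_cset' hS').2 hy)).symm,
      fun h y hy => (h y ((mem_cset' hS').1 hy)).symm⟩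
  refine ⟨(cset S).commutant, ?_, ?_, ?_, ?_⟩
  · intro x hx
    refine mem_of_comm fun y hy => (hm x).1 hx y fun s hs => hy s (hS s hs).1
  · intro s hs
    exact (hm s).2 fun y hy => hy s hs
  · intro a ha b hb
    refine (hm a).1 ha b fun s hs => ?_
    exact ((hm b).1 hb s fun t ht => hc t ht s hs).symm
  · intro y hy x hx
    exact (hm x).1 hx y hy

theorem psub_nonneg {M : VonNeumannAlgebra H} {φ : (H →L[ℂ] H) → ℂ} (h : Fac M φ)
    {p q : H →L[ℂ] H} (hp : IsP p) (hq : IsP q) (hpq : q * p = p) : φ p ≤ φ q := by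
  have hqp : p * q = p := by
    have := congrArg star hpq
    rwa [star_mul, hp.1, hq.1] at this
  have e : star (q - p) * (q - p) = q - p := by
    rw [star_sub, hp.1, hq.1, sub_mul, mul_sub, mul_sub, hq.2, hpq, hqp, hp.2]
    abel
  have h1 := h.nonneg (q - p)
  rw [e, h.sub] at h1
  exact sub_nonneg.1 h1

theorem mul_right_self {v e : H →L[ℂ] H} (he : IsP e) (hv : star v * v = e) : v * e = v := by
  have h : star (v * e - v) * (v * e - v) = 0 := by
    rw [star_sub, star_mul, he.1]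
    have h1 : (e * star v - star v) * (v * e - v) =
        e * (star v * v) * e - e * (star v * v) - (star v * v) * e + star v * v := by noncomm_ring
    rw [h1, hv, he.2, he.2]
    noncomm_ring
  have h2 := (CStarRing.star_mul_self_eq_zero_iff (v * e - v)).1 h
  exact sub_eq_zero.1 h2

/-- Comparison of projections is inherited by nearby projections in a nearby algebra. -/
theorem transfer {M N : VonNeumannAlgebra H} {ψ : (H →L[ℂ] H) → ℂ} (hN : Fac N ψ)
    (hn : Near M N (1 / 20)) {e₁ e₂ f₁ f₂ v : H →L[ℂ] H} (he₁ : IsP e₁) (he₂ : IsP e₂)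
    (hf₁ : IsP f₁) (hf₂ : IsP f₂) (hf₁N : f₁ ∈ N) (hf₂N : f₂ ∈ N) (h₁ : ‖e₁ - f₁‖ ≤ 1 / 20)
    (h₂ : ‖e₂ - f₂‖ ≤ 1 / 20) (hvM : v ∈ M) (hv : star v * v = e₁) (hv2 : e₂ * v = v) :
    ψ f₁ ≤ ψ f₂ := by
  have hv1 : ‖v‖ ≤ 1 := by
    have h1 : ‖star v * v‖ = ‖v‖ * ‖v‖ := CStarRing.norm_star_mul_self
    rw [hv] at h1
    have := he₁.norm_le
    nlinarith [norm_nonneg v]
  have hve : v * e₁ = v := mul_right_self he₁ hv
  obtain ⟨y, hyN, hyn⟩ := hn v hvM hv1
  have hy1 : ‖y‖ ≤ 21 / 20 := by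
    have e : y = v + (y - v) := by abel
    rw [e]
    refine (norm_add_le _ _).trans ?_
    linarith
  obtain ⟨w, hw⟩ : ∃ w, w = f₂ * y * f₁ := ⟨_, rfl⟩
  have hwN : w ∈ N := by rw [hw]; exact mul_mem (mul_mem hf₂N hyN) hf₁N
  have hwv : ‖w - v‖ ≤ 31 / 200 := by
    have e : w - v = (f₂ - e₂) * (y * f₁) + (e₂ * ((y - v) * f₁) + e₂ * v * (f₁ - e₁)) := by
      have e1 : e₂ * v * e₁ = v := by rw [hv2, hve]
      calc w - v = f₂ * y * f₁ - e₂ * v * e₁ := by rw [hw, e1]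
        _ = _ := by noncomm_ring
    rw [e]
    have h3 : ‖(f₂ - e₂) * (y * f₁)‖ ≤ 1 / 20 * (21 / 20 * 1) :=
      norm_mul_le' (by rw [norm_sub_rev]; exact h₂) (norm_mul_le' hy1 hf₁.norm_le)
    have h4 : ‖e₂ * ((y - v) * f₁)‖ ≤ 1 * (1 / 20 * 1) :=
      norm_mul_le' he₂.norm_le (norm_mul_le' hyn hf₁.norm_le)
    have h5 : ‖e₂ * v * (f₁ - e₁)‖ ≤ 1 * 1 * (1 / 20) :=
      norm_mul_le' (norm_mul_le' he₂.norm_le hv1) (by rw [norm_sub_rev]; exact h₁)
    refine (norm_add_le _ _).trans ?_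
    have h6 := norm_add_le (e₂ * ((y - v) * f₁)) (e₂ * v * (f₁ - e₁))
    linarith
  have hw1 : ‖w‖ ≤ 231 / 200 := by
    have e : w = v + (w - v) := by abel
    rw [e]
    refine (norm_add_le _ _).trans ?_
    linarith
  have hww : ‖f₁ - star w * w‖ ≤ 1 / 2 := by
    have e : f₁ - star w * w = -(star (w - v) * w + star v * (w - v)) - (e₁ - f₁) := by
      rw [← hv, star_sub]; noncomm_ring
    rw [e]
    have h3 : ‖star (w - v) * w‖ ≤ 31 / 200 * (231 / 200) :=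
      norm_mul_le' (by rw [norm_star]; exact hwv) hw1
    have h4 : ‖star v * (w - v)‖ ≤ 1 * (31 / 200) :=
      norm_mul_le' (by rw [norm_star]; exact hv1) hwv
    have h5 := norm_sub_le (-(star (w - v) * w + star v * (w - v))) (e₁ - f₁)
    rw [norm_neg] at h5
    have h6 := norm_add_le (star (w - v) * w) (star v * (w - v))
    linarith
  have hwf : w * f₁ = w := by rw [hw, mul_assoc, hf₁.2]
  have hfw : f₂ * w = w := by rw [hw, ← mul_assoc, ← mul_assoc, hf₂.2]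
  have hwf' : f₁ * star w = star w := by
    have := congrArg star hwf
    rwa [star_mul, hf₁.1] at this
  have hfw' : star w * f₂ = star w := by
    have := congrArg star hfw
    rwa [star_mul, hf₂.1] at this
  obtain ⟨u, huN, huPI, hu1, hu2, hu3⟩ :=
    H759R2.Kad.prove5_polar H N (star w) (star_mem hwN)
  have huPI' : u * star u * u = u := huPI
  obtain ⟨s, hs⟩ : ∃ s, s = u * star u := ⟨_, rfl⟩
  have hsP : IsP s := by
    refine ⟨by rw [hs, star_mul, star_star], ?_⟩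
    rw [hs, ← mul_assoc, huPI']
  have hfu : f₁ * u = u := by
    have := hu2 (1 - f₁) (by rw [sub_mul, one_mul, hwf', sub_self])
    rw [sub_mul, one_mul] at this
    exact (sub_eq_zero.1 this).symm
  have huf : u * f₂ = u := by
    have := hu3 (1 - f₂) (by rw [mul_sub, mul_one, hfw', sub_self])
    rw [mul_sub, mul_one] at this
    exact (sub_eq_zero.1 this).symm
  have hsf : f₁ * s = s := by rw [hs, ← mul_assoc, hfu]
  have hfs : s * f₁ = s := by
    have := congrArg star hsf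
    rwa [star_mul, hf₁.1, hsP.1] at this
  have hsw : s * star w = star w := by rw [hs]; exact hu1
  have hsf1 : s = f₁ := by
    have ht : (f₁ - s) * (f₁ - star w * w) = f₁ - s := by
      rw [sub_mul, mul_sub, mul_sub, hf₁.2, ← mul_assoc, ← mul_assoc, hwf', hsw, hfs]
      abel
    have h3 : ‖f₁ - s‖ ≤ ‖f₁ - s‖ * (1 / 2) := by
      calc ‖f₁ - s‖ = ‖(f₁ - s) * (f₁ - star w * w)‖ := by rw [ht]
        _ ≤ _ := norm_mul_le' le_rfl hww
    have h4 : ‖f₁ - s‖ ≤ 0 := by linarith [norm_nonneg (f₁ - s)]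
    exact (sub_eq_zero.1 (norm_le_zero_iff.1 h4)).symm
  have hr : IsP (star u * u) := by
    refine ⟨by rw [star_mul, star_star], ?_⟩
    rw [mul_assoc, ← mul_assoc u, huPI']
  have hrf : f₂ * (star u * u) = star u * u := by
    have := congrArg star huf
    rw [star_mul, hf₂.1] at this
    rw [← mul_assoc, this]
  calc ψ f₁ = ψ (u * star u) := by rw [← hsf1, hs]
    _ = ψ (star u * u) := hN.comm _ huN _ (star_mem huN)
    _ ≤ ψ f₂ := psub_nonneg hN hr hf₂ hrf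

/-- Elementary comparison through dyadic rationals. -/
theorem dyadic {a b : ℝ} (ha0 : 0 ≤ a) (ha1 : a ≤ 1) (hb0 : 0 ≤ b) (hb1 : b ≤ 1)
    (h1 : ∀ k j : ℕ, j ≤ 2 ^ k → (j : ℝ) / 2 ^ k < a → (j : ℝ) / 2 ^ k ≤ b)
    (h2 : ∀ k j : ℕ, j ≤ 2 ^ k → a < (j : ℝ) / 2 ^ k → b ≤ (j : ℝ) / 2 ^ k) : a = b := by
  rcases lt_trichotomy a b with h | h | h
  · exfalso
    obtain ⟨k, hk⟩ := exists_pow_lt_of_lt_one (sub_pos.2 h) (by norm_num : (1 / 2 : ℝ) < 1)
    have hp : (0 : ℝ) < 2 ^ k := by positivity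
    have hk' : 1 < (b - a) * 2 ^ k := by
      rw [one_div, inv_pow] at hk
      rwa [inv_lt_iff_one_lt_mul₀ hp] at hk
    have hj1 : a < ((⌊a * 2 ^ k⌋₊ + 1 : ℕ) : ℝ) / 2 ^ k := by
      rw [lt_div_iff₀ hp]
      push_cast
      exact Nat.lt_floor_add_one _
    have hj2 : ((⌊a * 2 ^ k⌋₊ + 1 : ℕ) : ℝ) / 2 ^ k < b := by
      rw [div_lt_iff₀ hp]
      push_cast
      have := Nat.floor_le (mul_nonneg ha0 hp.le)
      linarith
    have hj3 : ⌊a * 2 ^ k⌋₊ + 1 ≤ 2 ^ k := by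
      have h5 : ((⌊a * 2 ^ k⌋₊ + 1 : ℕ) : ℝ) < 2 ^ k := by
        rw [div_lt_iff₀ hp] at hj2
        nlinarith
      have h6 : ((⌊a * 2 ^ k⌋₊ + 1 : ℕ) : ℝ) < ((2 ^ k : ℕ) : ℝ) := by
        push_cast at h5 ⊢
        exact h5
      exact (Nat.cast_lt.1 h6).le
    have := h2 k _ hj3 hj1
    linarith
  · exact h
  · exfalso
    obtain ⟨k, hk⟩ := exists_pow_lt_of_lt_one (sub_pos.2 h) (by norm_num : (1 / 2 : ℝ) < 1)
    have hp : (0 : ℝ) < 2 ^ k := by positivity
    have hk' : 1 < (a - b) * 2 ^ k := by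
      rw [one_div, inv_pow] at hk
      rwa [inv_lt_iff_one_lt_mul₀ hp] at hk
    have hj1 : b < ((⌊b * 2 ^ k⌋₊ + 1 : ℕ) : ℝ) / 2 ^ k := by
      rw [lt_div_iff₀ hp]
      push_cast
      exact Nat.lt_floor_add_one _
    have hj2 : ((⌊b * 2 ^ k⌋₊ + 1 : ℕ) : ℝ) / 2 ^ k < a := by
      rw [div_lt_iff₀ hp]
      push_cast
      have := Nat.floor_le (mul_nonneg hb0 hp.le)
      linarith
    have hj3 : ⌊b * 2 ^ k⌋₊ + 1 ≤ 2 ^ k := by
      have h5 : ((⌊b * 2 ^ k⌋₊ + 1 : ℕ) : ℝ) < 2 ^ k := by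
        rw [div_lt_iff₀ hp] at hj2
        nlinarith
      have h6 : ((⌊b * 2 ^ k⌋₊ + 1 : ℕ) : ℝ) < ((2 ^ k : ℕ) : ℝ) := by
        push_cast at h5 ⊢
        exact h5
      exact (Nat.cast_lt.1 h6).le
    have := h1 k _ hj3 hj2
    linarith

end Pool.Agent.U107.CC
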