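import Mathlib
import Pool.Agent.U107.CC.Tr

/-!
Coupling constants of close II₁ factors: nearby projections in close II₁ factors have the same
trace.
-/

set_option autoImplicit false
set_option linter.unusedSectionVars false

open scoped ComplexOrder InnerProductSpace ComplexConjugate
open Filter Topology

noncomputable section

namespace Pool.Agent.U107.CC

variable {H : Type} [NormedAddCommGroup H] [InnerProductSpace ℂ H] [CompleteSpace H]

theorem conj_near {w : H →L[ℂ] H} (hw : IsU w) (x : H →L[ℂ] H) :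
    ‖x - w * x * star w‖ ≤ 2 * ‖w - 1‖ * ‖x‖ := by
  have e : x - w * x * star w = -((w - 1) * (x * star w) + x * star (w - 1)) := by
    rw [star_sub, star_one]; noncomm_ring
  rw [e, norm_neg]
  have h1 : ‖(w - 1) * (x * star w)‖ ≤ ‖w - 1‖ * (‖x‖ * 1) :=
    norm_mul_le' le_rfl (norm_mul_le' le_rfl hw.adj.norm_le)
  have h2 : ‖x * star (w - 1)‖ ≤ ‖x‖ * ‖w - 1‖ := norm_mul_le' le_rfl (norm_star _).le
  have h3 := norm_add_le ((w - 1) * (x * star w)) (x * star (w - 1))
  linarith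

theorem IsP.conj {w p : H →L[ℂ] H} (hw : IsU w) (hp : IsP p) : IsP (w * p * star w) := by
  refine ⟨?_, ?_⟩
  · rw [star_mul, star_mul, star_star, hp.1, mul_assoc]
  · calc w * p * star w * (w * p * star w) = w * p * (star w * w) * p * star w := by
          simp only [mul_assoc]
      _ = w * p * star w := by rw [hw.1, mul_one, mul_assoc w p p, hp.2]

theorem IsP.comm_mul {v p q : H →L[ℂ] H} (hp : IsP p) (hq : IsP q) (hv : v * star v = p)
    (hvq : v * q = v) : IsP (star v * v) ∧ q * (star v * v) = star v * v := by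
  have hpv : p * v = v := by
    have h1 : star v * p = star v := mul_right_self hp (by rw [star_star, hv])
    have := congrArg star h1
    rwa [star_mul, star_star, hp.1] at this
  refine ⟨⟨by rw [star_mul, star_star], ?_⟩, ?_⟩
  · calc star v * v * (star v * v) = star v * ((v * star v) * v) := by simp only [mul_assoc]
      _ = star v * v := by rw [hv, hpv]
  · have := congrArg star hvq
    rw [star_mul, hq.1] at this
    rw [← mul_assoc, this]

theorem trace_le {M : VonNeumannAlgebra H} {φ : (H →L[ℂ] H) → ℂ} (hM : Fac M φ)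
    {v p q : H →L[ℂ] H} (hvM : v ∈ M) (hp : IsP p) (hq : IsP q) (hv : v * star v = p)
    (hvq : v * q = v) : φ p ≤ φ q := by
  obtain ⟨h1, h2⟩ := hp.comm_mul hq hv hvq
  calc φ p = φ (v * star v) := by rw [hv]
    _ = φ (star v * v) := hM.comm _ hvM _ (star_mem hvM)
    _ ≤ φ q := psub_nonneg hM h1 hq h2

theorem IsP.range {M : VonNeumannAlgebra H} {φ : (H →L[ℂ] H) → ℂ} (hM : Fac M φ)
    {p : H →L[ℂ] H} (hp : IsP p) : 0 ≤ φ p ∧ φ p ≤ 1 := by
  refine ⟨?_, ?_⟩
  · have := hM.nonneg p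
    rwa [hp.1, hp.2] at this
  · rw [← hM.one]
    exact psub_nonneg hM hp ⟨star_one _, one_mul _⟩ (one_mul _)

/-- Partitions into `2 ^ k` equivalent projections, with a copy in the nearby algebra. -/
theorem partition {M N : VonNeumannAlgebra H} {φ ψ : (H →L[ℂ] H) → ℂ} (hM : Fac M φ)
    (hN : Fac N ψ) {δ : ℝ} (hδ : 0 ≤ δ) (hδ1 : 600 * δ ≤ 1 / 20) (hn : Near M N δ) (k j : ℕ)
    (hj : j ≤ 2 ^ k) : ∃ q r : H →L[ℂ] H, IsP q ∧ IsP r ∧ q ∈ M ∧ r ∈ N ∧ ‖q - r‖ ≤ 1 / 20 ∧
      φ q = ((j / 2 ^ k : ℝ) : ℂ) ∧ ψ r = ((j / 2 ^ k : ℝ) : ℂ) := by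
  classical
  obtain ⟨E, hE⟩ := hM.units k
  have hEE : ∀ i j, E i i * E j j = if i = j then E i i else 0 := by
    intro i j
    rw [hE.mul]
    by_cases h : i = j
    · subst h; simp
    · simp [h]
  have hEP : ∀ i, IsP (E i i) := fun i => ⟨hE.adj i i, by rw [hEE]; simp⟩
  obtain ⟨B, hBM, hEB, hBab, _⟩ := exists_ab M (Set.range fun i => E i i) (by
    rintro _ ⟨i, rfl⟩
    exact ⟨hE.mem i i, (hEP i).1⟩) (by
    rintro _ ⟨i, rfl⟩ _ ⟨j, rfl⟩
    simp only
    rw [hEE, hEE]
    by_cases h : i = j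
    · subst h; rfl
    · rw [if_neg h, if_neg (Ne.symm h)])
  obtain ⟨w, hw, hwn, hwP, _⟩ := perturb_ab N B hBab δ hδ (by linarith)
    (fun x hx h => hn x (hBM x hx) h)
  have hnear : ∀ p : H →L[ℂ] H, IsP p → ‖p - w * p * star w‖ ≤ 1 / 20 := by
    intro p hp
    have h1 := conj_near hw p
    have h2 := hp.norm_le
    have h3 : 2 * ‖w - 1‖ * ‖p‖ ≤ 2 * ‖w - 1‖ * 1 :=
      mul_le_mul_of_nonneg_left h2 (by positivity)
    linarith
  have hnn : Near M N (1 / 20) := fun x hx h => by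
    obtain ⟨y, hy, hyn⟩ := hn x hx h
    exact ⟨y, hy, by linarith⟩
  have hcard : (0 : ℝ) < 2 ^ k := by positivity
  have hcardc : ((2 : ℂ) ^ k) ≠ 0 := by positivity
  have i0 : Fin (2 ^ k) := ⟨0, by positivity⟩
  -- values of the traces on the pieces
  have hφE : ∀ i, φ (E i i) = ((1 / 2 ^ k : ℝ) : ℂ) := by
    have heq : ∀ i j, φ (E i i) = φ (E j j) := by
      intro i j
      have h1 := hM.comm _ (hE.mem i j) _ (hE.mem j i)
      rw [hE.mul, hE.mul, if_pos rfl, if_pos rfl] at h1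
      exact h1
    intro i
    have h1 : ∑ j, φ (E j j) = 1 := by rw [← hM.sum, hE.sum, hM.one]
    rw [Finset.sum_congr rfl fun j _ => heq j i, Finset.sum_const, Finset.card_univ,
      Fintype.card_fin, nsmul_eq_mul] at h1
    push_cast at h1 ⊢
    rw [eq_div_iff hcardc, mul_comm]
    exact h1
  have hψF : ∀ i, ψ (w * E i i * star w) = ((1 / 2 ^ k : ℝ) : ℂ) := by
    have hle : ∀ i j, ψ (w * E i i * star w) ≤ ψ (w * E j j * star w) := by
      intro i j
      refine transfer (v := E j i) hN hnn (hEP i) (hEP j) ((hEP i).conj hw) ((hEP j).conj hw)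
        (hwP _ (hEB _ ⟨i, rfl⟩)) (hwP _ (hEB _ ⟨j, rfl⟩)) (hnear _ (hEP i)) (hnear _ (hEP j))
        (hE.mem j i) ?_ ?_
      · rw [hE.adj, hE.mul, if_pos rfl]
      · rw [hE.mul, if_pos rfl]
    intro i
    have h1 : ∑ j, ψ (w * E j j * star w) = 1 := by
      rw [← hN.sum, ← Finset.sum_mul, ← Finset.mul_sum, hE.sum, mul_one, hw.2, hN.one]
    rw [Finset.sum_congr rfl fun j _ => le_antisymm (hle j i) (hle i j), Finset.sum_const,
      Finset.card_univ, Fintype.card_fin, nsmul_eq_mul] at h1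
    push_cast at h1 ⊢
    rw [eq_div_iff hcardc, mul_comm]
    exact h1
  obtain ⟨s, hs⟩ : ∃ s : Finset (Fin (2 ^ k)), s.card = j := by
    obtain ⟨s, _, hs⟩ := Finset.exists_subset_card_eq (s := (Finset.univ : Finset (Fin (2 ^ k))))
      (n := j) (by simpa using hj)
    exact ⟨s, hs⟩
  obtain ⟨q, hq⟩ : ∃ q, q = ∑ i ∈ s, E i i := ⟨_, rfl⟩
  have hqP : IsP q := by
    refine ⟨?_, ?_⟩
    · rw [hq, star_sum]
      exact Finset.sum_congr rfl fun i _ => (hEP i).1
    · rw [hq, Finset.sum_mul_sum]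
      refine Finset.sum_congr rfl fun i hi => ?_
      rw [Finset.sum_congr rfl fun j _ => hEE i j, Finset.sum_ite_eq, if_pos hi]
  have hqB : q ∈ B := by
    rw [hq]
    exact sum_mem fun i _ => hEB _ ⟨i, rfl⟩
  refine ⟨q, w * q * star w, hqP, hqP.conj hw, hBM _ hqB, hwP _ hqB, hnear _ hqP, ?_, ?_⟩
  · rw [hq, hM.sum, Finset.sum_congr rfl fun i _ => hφE i, Finset.sum_const, nsmul_eq_mul, hs]
    push_cast
    ring
  · rw [hq, Finset.mul_sum, Finset.sum_mul, hN.sum, Finset.sum_congr rfl fun i _ => hψF i,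
      Finset.sum_const, nsmul_eq_mul, hs]
    push_cast
    ring

/-- Nearby projections in close II₁ factors have the same trace. -/
theorem trace_eq {M N : VonNeumannAlgebra H} {φ ψ : (H →L[ℂ] H) → ℂ} (hM : Fac M φ)
    (hN : Fac N ψ) {δ : ℝ} (hδ : 0 ≤ δ) (hδ1 : 600 * δ ≤ 1 / 20) (hn : Near M N δ)
    {e f : H →L[ℂ] H} (he : IsP e) (hf : IsP f) (heM : e ∈ M) (hfN : f ∈ N)
    (hef : ‖e - f‖ ≤ 1 / 20) : φ e = ψ f := by
  have hnn : Near M N (1 / 20) := fun x hx h => by
    obtain ⟨y, hy, hyn⟩ := hn x hx h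
    exact ⟨y, hy, by linarith⟩
  obtain ⟨he0, he1⟩ := he.range hM
  obtain ⟨hf0, hf1⟩ := hf.range hN
  have hre : (φ e).re = (ψ f).re := by
    refine dyadic (Complex.le_def.1 he0).1 (Complex.le_def.1 he1).1 (Complex.le_def.1 hf0).1
      (Complex.le_def.1 hf1).1 ?_ ?_
    · intro k j hj hlt
      obtain ⟨q, r, hq, hr, hqM, hrN, hqr, hφq, hψr⟩ := partition hM hN hδ hδ1 hn k j hj
      obtain ⟨v, hvM, ⟨h1, h2⟩ | ⟨h1, h2⟩⟩ := comp H M hM.center q hqM e heM hq he
      · have h3 := transfer hN hnn hq he hr hf hrN hfN hqr hef hvM h1 h2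
        rw [hψr] at h3
        have h4 := (Complex.le_def.1 h3).1
        rwa [Complex.ofReal_re] at h4
      · have h3 := trace_le hM hvM he hq h1 h2
        rw [hφq] at h3
        have h4 := (Complex.le_def.1 h3).1
        rw [Complex.ofReal_re] at h4
        linarith
    · intro k j hj hlt
      obtain ⟨q, r, hq, hr, hqM, hrN, hqr, hφq, hψr⟩ := partition hM hN hδ hδ1 hn k j hj
      obtain ⟨v, hvM, ⟨h1, h2⟩ | ⟨h1, h2⟩⟩ := comp H M hM.center e heM q hqM he hq
      · have h3 := transfer hN hnn he hq hf hr hfN hrN hef hqr hvM h1 h2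
        rw [hψr] at h3
        have h4 := (Complex.le_def.1 h3).1
        rwa [Complex.ofReal_re] at h4
      · have h3 := trace_le hM hvM hq he h1 h2
        rw [hφq] at h3
        have h4 := (Complex.le_def.1 h3).1
        rw [Complex.ofReal_re] at h4
        linarith
  refine Complex.ext hre ?_
  rw [← (Complex.le_def.1 he0).2, ← (Complex.le_def.1 hf0).2]

end Pool.Agent.U107.CC
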