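import Mathlib
import Pool.Agent.U107.CC.Tr2

/-!
Coupling constants of close II₁ factors: right multiplications in the commutant.
-/

set_option autoImplicit false
set_option linter.unusedSectionVars false

open scoped ComplexOrder InnerProductSpace ComplexConjugate
open Filter Topology

noncomputable section

namespace Pool.Agent.U107.CC

variable {H : Type} [NormedAddCommGroup H] [InnerProductSpace ℂ H] [CompleteSpace H]

theorem inner_star_left (a : H →L[ℂ] H) (ξ η : H) : ⟪star a ξ, η⟫_ℂ = ⟪ξ, a η⟫_ℂ := by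
  rw [ContinuousLinearMap.star_eq_adjoint, ContinuousLinearMap.adjoint_inner_left]

theorem inner_star_right (a : H →L[ℂ] H) (ξ η : H) : ⟪ξ, star a η⟫_ℂ = ⟪a ξ, η⟫_ℂ := by
  rw [ContinuousLinearMap.star_eq_adjoint, ContinuousLinearMap.adjoint_inner_right]

/-- The cyclic subspace. -/
def cyc (M : VonNeumannAlgebra H) (ξ : H) : Submodule ℂ H :=
  (Submodule.span ℂ {η | ∃ x ∈ M, η = x ξ}).topologicalClosure

theorem cyc_closed (M : VonNeumannAlgebra H) (ξ : H) : IsClosed (cyc M ξ : Set H) :=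
  Submodule.isClosed_topologicalClosure _

theorem mem_cyc (M : VonNeumannAlgebra H) (ξ : H) {x : H →L[ℂ] H} (hx : x ∈ M) :
    x ξ ∈ cyc M ξ :=
  Submodule.le_topologicalClosure _ (Submodule.subset_span ⟨x, hx, rfl⟩)

theorem cyc_ind {M : VonNeumannAlgebra H} {ξ : H} (L : Submodule ℂ H) (hL : IsClosed (L : Set H))
    (h : ∀ x ∈ M, x ξ ∈ L) : cyc M ξ ≤ L := by
  refine Submodule.topologicalClosure_minimal _ ?_ hL
  rw [Submodule.span_le]
  rintro _ ⟨x, hx, rfl⟩
  exact h x hx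

/-- Orthogonality to the cyclic subspace. -/
theorem mem_orth {M : VonNeumannAlgebra H} {ξ ζ : H} (h : ∀ x ∈ M, ⟪x ξ, ζ⟫_ℂ = 0) :
    ∀ η ∈ cyc M ξ, ⟪η, ζ⟫_ℂ = 0 := by
  have h1 : cyc M ξ ≤ (Submodule.span ℂ {ζ})ᗮ := by
    refine cyc_ind _ (Submodule.isClosed_orthogonal _) fun x hx => ?_
    rw [Submodule.mem_orthogonal_singleton_iff_inner_left]
    exact h x hx
  intro η hη
  have := h1 hη
  rwa [Submodule.mem_orthogonal_singleton_iff_inner_left] at this

/-- Operators agreeing on the cyclic subspace and on its complement are equal. -/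
theorem ext_cyc {M : VonNeumannAlgebra H} {ξ : H} {S T : H →L[ℂ] H}
    (h1 : ∀ x ∈ M, S (x ξ) = T (x ξ))
    (h2 : ∀ ζ, (∀ x ∈ M, ⟪x ξ, ζ⟫_ℂ = 0) → S ζ = T ζ) : S = T := by
  haveI : CompleteSpace (cyc M ξ) := (cyc_closed M ξ).completeSpace_coe
  have h3 : cyc M ξ ≤ LinearMap.ker ((S - T : H →L[ℂ] H) : H →ₗ[ℂ] H) := by
    refine cyc_ind _ ?_ fun x hx => ?_
    · exact isClosed_singleton.preimage (S - T).continuous
    · rw [LinearMap.mem_ker]
      exact sub_eq_zero.2 (h1 x hx)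
  ext ζ
  have h4 : S ((cyc M ξ).starProjection ζ) = T ((cyc M ξ).starProjection ζ) := by
    have := h3 (Submodule.starProjection_apply_mem (cyc M ξ) ζ)
    rw [LinearMap.mem_ker] at this
    exact sub_eq_zero.1 this
  have h5 : S (ζ - (cyc M ξ).starProjection ζ) = T (ζ - (cyc M ξ).starProjection ζ) := by
    refine h2 _ fun x hx => ?_
    have := Submodule.sub_starProjection_mem_orthogonal (K := cyc M ξ) ζ
    exact (Submodule.mem_orthogonal _ _).1 this _ (mem_cyc M ξ hx)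
  rw [map_sub, map_sub, h4] at h5
  exact sub_left_injective h5

/-- Vectors with the same state are joined by a partial isometry of the commutant. -/
theorem exists_pi (M : VonNeumannAlgebra H) (ξ η : H) (h : ∀ x ∈ M, ‖x η‖ = ‖x ξ‖) :
    ∃ v ∈ M.commutant, v ξ = η ∧ (∀ ζ, (∀ x ∈ M, ⟪x ξ, ζ⟫_ℂ = 0) → v ζ = 0) ∧
      (∀ ζ, (∀ x ∈ M, ⟪x η, ζ⟫_ℂ = 0) → star v ζ = 0) ∧ star v η = ξ := by
  let ev : H → M.toStarSubalgebra →ₗ[ℂ] H := fun α =>
    { toFun := fun x => (x : H →L[ℂ] H) α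
      map_add' := fun x y => rfl
      map_smul' := fun c x => rfl }
  set K : Submodule ℂ H := (LinearMap.range (ev ξ)).topologicalClosure with hK
  have hKc : IsClosed (K : Set H) := Submodule.isClosed_topologicalClosure _
  have : CompleteSpace K := hKc.completeSpace_coe
  have hmem : ∀ x, ev ξ x ∈ K := fun x => Submodule.le_topologicalClosure _ ⟨x, rfl⟩
  let e : M.toStarSubalgebra →ₗ[ℂ] K := (ev ξ).codRestrict K hmem
  have hde : DenseRange e := by
    intro k
    rw [Metric.mem_closure_iff]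
    intro ε hε
    have hk : (k : H) ∈ closure (LinearMap.range (ev ξ) : Set H) := k.2
    rw [Metric.mem_closure_iff] at hk
    obtain ⟨_, ⟨x, rfl⟩, hx⟩ := hk ε hε
    exact ⟨e x, ⟨x, rfl⟩, hx⟩
  have hne : ∀ x, ‖ev η x‖ ≤ 1 * ‖e x‖ := by
    intro x
    rw [one_mul]
    exact (h x.1 x.2).le
  let V : K →L[ℂ] H := (ev η).extendOfNorm e
  have hV : ∀ x, V (e x) = ev η x := fun x => LinearMap.extendOfNorm_eq hde ⟨1, hne⟩ x
  have hVn : ∀ k : K, ‖V k‖ = ‖k‖ := by
    intro k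
    refine hde.induction (P := fun k => ‖V k‖ = ‖k‖) ?_ (isClosed_eq (by fun_prop) (by fun_prop)) k
    rintro _ ⟨x, rfl⟩
    rw [hV]
    exact h x.1 x.2
  let Vi : K →ₗᵢ[ℂ] H := ⟨(V : K →ₗ[ℂ] H), hVn⟩
  have hVi : ∀ k l : K, ⟪V k, V l⟫_ℂ = ⟪k, l⟫_ℂ := fun k l => Vi.inner_map_map k l
  let v : H →L[ℂ] H := V ∘L K.orthogonalProjectionOnto
  have hv : ∀ α, v α = V (K.orthogonalProjectionOnto α) := fun α => rfl
  have hvK : ∀ k : K, v k = V k := by
    intro k
    rw [hv, Submodule.orthogonalProjectionOnto_mem_subspace_eq_self]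
  have hvx : ∀ x ∈ M, v (x ξ) = x η := by
    intro x hx
    have h1 : v (e ⟨x, hx⟩) = V (e ⟨x, hx⟩) := hvK _
    rw [hV] at h1
    exact h1
  have hvξ : v ξ = η := by
    have := hvx 1 (one_mem _)
    simpa using this
  have hkill : ∀ ζ, (∀ x ∈ M, ⟪x ξ, ζ⟫_ℂ = 0) → v ζ = 0 := by
    intro ζ hζ
    have h1 : ζ ∈ Kᗮ := by
      rw [hK, Submodule.orthogonal_closure, Submodule.mem_orthogonal]
      rintro _ ⟨x, rfl⟩
      exact hζ x.1 x.2
    rw [hv, Submodule.orthogonalProjectionOnto_eq_zero_iff.2 h1, map_zero]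
  have hcomm : ∀ y ∈ M, y * v = v * y := by
    intro y hy
    refine ext_cyc (M := M) (ξ := ξ) ?_ ?_
    · intro x hx
      change y (v (x ξ)) = v (y (x ξ))
      have h1 := hvx (y * x) (mul_mem hy hx)
      rw [hvx x hx]
      exact h1.symm
    · intro ζ hζ
      change y (v ζ) = v (y ζ)
      rw [hkill ζ hζ, map_zero, hkill (y ζ)]
      intro x hx
      rw [← inner_star_left]
      exact hζ (star y * x) (mul_mem (star_mem hy) hx)
  have hran : ∀ α, v α ∈ cyc M η := by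
    intro α
    rw [hv]
    refine hde.induction (P := fun k => V k ∈ cyc M η) ?_
      ((cyc_closed M η).preimage V.continuous) _
    rintro _ ⟨x, rfl⟩
    rw [hV]
    exact mem_cyc M η x.2
  refine ⟨v, ?_, hvξ, hkill, ?_, ?_⟩
  · rw [VonNeumannAlgebra.mem_commutant_iff]
    exact hcomm
  · intro ζ hζ
    refine ext_inner_left ℂ fun α => ?_
    rw [inner_star_right, inner_zero_right]
    exact mem_orth hζ _ (hran α)
  · refine ext_inner_right ℂ fun α => ?_
    rw [inner_star_left, ← hvξ, hv, hv, hVi, Submodule.inner_orthogonalProjectionOnto_eq_of_mem_left]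
    have h1 : ξ ∈ K := by
      have := hmem 1
      simpa [ev] using this
    have h2 : (K.orthogonalProjectionOnto ξ : H) = ξ := by
      exact Submodule.starProjection_eq_self_iff.2 h1
    rw [h2]

/-- The family of right multiplications by symmetries of a masa. -/
theorem exists_right {M A : VonNeumannAlgebra H} {φ : (H →L[ℂ] H) → ℂ} (hM : Fac M φ)
    (hAM : ∀ a ∈ A, a ∈ M) (hA : ∀ a ∈ A, ∀ b ∈ A, a * b = b * a) {ι : Type} (ξ : ι → H)
    (P : ι → (H →L[ℂ] H)) (hP : ∀ j, P j ∈ A)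
    (hvec : ∀ j, ∀ x ∈ M, ⟪ξ j, x (ξ j)⟫_ℂ = φ (x * P j))
    (horth : ∀ i j, i ≠ j → ∀ x ∈ M, ⟪ξ i, x (ξ j)⟫_ℂ = 0) :
    ∃ v : ι → Sym A → (H →L[ℂ] H), (∀ j u, v j u ∈ M.commutant) ∧ (∀ j u, star (v j u) = v j u) ∧
      (∀ j u, v j u (ξ j) = u.1 (ξ j)) ∧ (∀ i j u, i ≠ j → v j u (ξ i) = 0) ∧
      ∀ i j u u', v i u * v j u' = v j u' * v i u := by
  have hst : ∀ j (u : Sym A), ∀ x ∈ M, ‖x (u.1 (ξ j))‖ = ‖x (ξ j)‖ := by
    intro j u x hx
    have huM := hAM _ u.2.1
    have hPM := hAM _ (hP j)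
    have e1 : ⟪x (u.1 (ξ j)), x (u.1 (ξ j))⟫_ℂ = φ (u.1 * (star x * x) * u.1 * P j) := by
      have h1 := hvec j (u.1 * (star x * x) * u.1) (mul_mem (mul_mem huM (mul_mem (star_mem hx) hx)) huM)
      rw [← h1]
      change _ = ⟪ξ j, u.1 (star x (x (u.1 (ξ j))))⟫_ℂ
      rw [← inner_star_left u.1, u.2.2.1, inner_star_right]
    have e2 : ⟪x (ξ j), x (ξ j)⟫_ℂ = φ (star x * x * P j) := by
      have h1 := hvec j (star x * x) (mul_mem (star_mem hx) hx)
      rw [← h1]
      change _ = ⟪ξ j, star x (x (ξ j))⟫_ℂ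
      rw [inner_star_right]
    have e3 : φ (u.1 * (star x * x) * u.1 * P j) = φ (star x * x * P j) := by
      have h1 := hM.comm u.1 huM (star x * x * (u.1 * P j))
        (mul_mem (mul_mem (star_mem hx) hx) (mul_mem huM hPM))
      have h2 : u.1 * (star x * x) * u.1 * P j = u.1 * (star x * x * (u.1 * P j)) := by
        simp only [mul_assoc]
      have h3 : star x * x * (u.1 * P j) * u.1 = star x * x * P j := by
        calc star x * x * (u.1 * P j) * u.1 = star x * x * (P j * (u.1 * u.1)) := by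
              rw [hA _ u.2.1 _ (hP j)]; simp only [mul_assoc]
          _ = star x * x * P j := by rw [u.2.2.2, mul_one]
      rw [h2, h1, h3]
    have e4 : ⟪x (u.1 (ξ j)), x (u.1 (ξ j))⟫_ℂ = ⟪x (ξ j), x (ξ j)⟫_ℂ := by rw [e1, e2, e3]
    rw [inner_self_eq_norm_sq_to_K, inner_self_eq_norm_sq_to_K] at e4
    have h2 : ‖x (u.1 (ξ j))‖ ^ 2 = ‖x (ξ j)‖ ^ 2 := by exact_mod_cast e4
    exact (sq_eq_sq₀ (norm_nonneg _) (norm_nonneg _)).1 h2
  choose v hvM hvξ hvk hvk' hvs using fun j (u : Sym A) =>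
    exists_pi M (ξ j) (u.1 (ξ j)) (hst j u)
  have hcM : ∀ j u, ∀ x ∈ M, ∀ α, v j u (x α) = x (v j u α) := by
    intro j u x hx α
    have h1 := VonNeumannAlgebra.mem_commutant_iff.1 (hvM j u) x hx
    exact (congrArg (fun T : H →L[ℂ] H => T α) h1).symm
  have hcM' : ∀ j u, ∀ x ∈ M, ∀ α, star (v j u) (x α) = x (star (v j u) α) := by
    intro j u x hx α
    have h1 := VonNeumannAlgebra.mem_commutant_iff.1 (star_mem (hvM j u)) x hx
    exact (congrArg (fun T : H →L[ℂ] H => T α) h1).symm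
  have hsa : ∀ j u, star (v j u) = v j u := by
    intro j u
    refine ext_cyc (M := M) (ξ := ξ j) ?_ ?_
    · intro x hx
      rw [hcM _ _ x hx, hcM' _ _ x hx, hvξ]
      congr 1
      have h1 := hvs j u
      rw [hcM' _ _ _ (hAM _ u.2.1)] at h1
      have h2 : (u.1 * u.1) (star (v j u) (ξ j)) = u.1 (ξ j) := congrArg u.1 h1
      rw [u.2.2.2] at h2
      exact h2
    · intro ζ hζ
      rw [hvk j u ζ hζ]
      refine hvk' j u ζ fun x hx => ?_
      exact hζ (x * u.1) (mul_mem hx (hAM _ u.2.1))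
  have hperp : ∀ i j, i ≠ j → ∀ x ∈ M, ∀ y ∈ M, ⟪x (ξ i), y (ξ j)⟫_ℂ = 0 := by
    intro i j hij x hx y hy
    rw [← inner_star_right x]
    exact horth i j hij (star x * y) (mul_mem (star_mem hx) hy)
  have hkx : ∀ i j u, i ≠ j → ∀ x ∈ M, v j u (x (ξ i)) = 0 := by
    intro i j u hij x hx
    exact hvk j u _ fun y hy => hperp j i (Ne.symm hij) y hy x hx
  have hz : ∀ i j u u', i ≠ j → v i u * v j u' = 0 := by
    intro i j u u' hij
    ext α
    change v i u (v j u' α) = 0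
    refine hvk i u _ fun x hx => ?_
    rw [← inner_star_left, hsa, hkx i j u' hij x hx, inner_zero_left]
  refine ⟨v, hvM, hsa, hvξ, ?_, ?_⟩
  · intro i j u hij
    have := hkx i j u hij 1 (one_mem _)
    simpa using this
  · intro i j u u'
    by_cases hij : i = j
    · subst hij
      refine ext_cyc (M := M) (ξ := ξ i) ?_ ?_
      · intro x hx
        change v i u (v i u' (x (ξ i))) = v i u' (v i u (x (ξ i)))
        have h1 : ∀ s t : Sym A, v i s (v i t (x (ξ i))) = x ((t.1 * s.1) (ξ i)) := by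
          intro s t
          rw [hcM _ _ x hx, hvξ, hcM _ _ x hx, hcM _ _ _ (hAM _ t.2.1), hvξ]
          rfl
        rw [h1, h1, hA _ u.2.1 _ u'.2.1]
      · intro ζ hζ
        change v i u (v i u' ζ) = v i u' (v i u ζ)
        rw [hvk i u ζ hζ, hvk i u' ζ hζ, map_zero, map_zero]
    · rw [hz i j u u' hij, hz j i u' u (Ne.symm hij)]

end Pool.Agent.U107.CC
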