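import Mathlib
import Pool.Agent.U107.CC.Right

/-!
Coupling constants of close II₁ factors: the value of the dimension on a total family.
-/

set_option autoImplicit false
set_option linter.unusedSectionVars false

open scoped ComplexOrder InnerProductSpace ComplexConjugate
open Filter Topology

noncomputable section

namespace Pool.Agent.U107.CC

variable {H : Type} [NormedAddCommGroup H] [InnerProductSpace ℂ H] [CompleteSpace H]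

theorem norm_sq_of {a b : H} (c : ℂ) (h : ⟪a, a⟫_ℂ = c) (h' : ⟪b, b⟫_ℂ ≤ c) : ‖b‖ ≤ ‖a‖ := by
  rw [← h, inner_self_eq_norm_sq_to_K, inner_self_eq_norm_sq_to_K] at h'
  have h1 : (((‖b‖ ^ 2 : ℝ)) : ℂ) ≤ ((‖a‖ ^ 2 : ℝ) : ℂ) := by
    push_cast
    exact h'
  have h2 := Complex.real_le_real.1 h1
  exact (sq_le_sq₀ (norm_nonneg _) (norm_nonneg _)).1 h2

/-- The basic inequality `|⟨x ξ, ξ'⟩| ≤ ‖x ξ‖ ‖f' ξ‖`. -/
theorem cross_le {M : VonNeumannAlgebra H} {φ : (H →L[ℂ] H) → ℂ} (hM : Fac M φ)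
    {ξ ξ' : H} {p p' : H →L[ℂ] H} (hp : IsP p) (hp' : IsP p') (hpM : p ∈ M) (hpM' : p' ∈ M)
    (h : ∀ x ∈ M, ⟪ξ, x ξ⟫_ℂ = φ (x * p)) (h' : ∀ x ∈ M, ⟪ξ', x ξ'⟫_ℂ = φ (x * p'))
    (c : ℝ) (hc0 : 0 ≤ c) (hc : ∀ y ∈ M, ‖⟪ξ, y ξ'⟫_ℂ‖ ≤ c * ‖y ξ'‖) :
    ∀ x ∈ M, ‖⟪x ξ, ξ'⟫_ℂ‖ ≤ c * ‖x ξ‖ := by
  -- `p ξ = ξ`
  have hfix : ∀ {α : H} {q : H →L[ℂ] H}, IsP q → q ∈ M → (∀ x ∈ M, ⟪α, x α⟫_ℂ = φ (x * q)) →
      q α = α := by
    intro α q hq hqM hα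
    have h1 := hα (1 - q) (sub_mem (one_mem _) hqM)
    rw [sub_mul, one_mul, hq.2, sub_self, hM.zero] at h1
    have h2 : ⟪(1 - q) α, (1 - q) α⟫_ℂ = 0 := by
      rw [← inner_star_right (1 - q), star_sub, star_one, hq.1]
      have e : (1 - q) * (1 - q) = 1 - q := by
        rw [sub_mul, mul_sub, mul_sub, hq.2]; noncomm_ring
      have e2 : (1 - q) ((1 - q) α) = (1 - q) α := congrArg (fun T : H →L[ℂ] H => T α) e
      rw [e2]
      exact h1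
    have h3 := inner_self_eq_zero.1 h2
    have h4 : α - q α = 0 := h3
    exact (sub_eq_zero.1 h4).symm
  have hpξ := hfix hp hpM h
  have hpξ' := hfix hp' hpM' h'
  intro x hx
  obtain ⟨y, hy⟩ : ∃ y, y = p * star x * p' := ⟨_, rfl⟩
  have hyM : y ∈ M := by rw [hy]; exact mul_mem (mul_mem hpM (star_mem hx)) hpM'
  have e1 : ⟪x ξ, ξ'⟫_ℂ = ⟪ξ, y ξ'⟫_ℂ := by
    rw [hy]
    change _ = ⟪ξ, p (star x (p' ξ'))⟫_ℂ
    rw [hpξ', ← inner_star_left p, hp.1, hpξ, inner_star_right]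
  have e2 : ‖y ξ'‖ ≤ ‖x ξ‖ := by
    refine norm_sq_of (φ (star x * x * p)) ?_ ?_
    · rw [← inner_star_right x]
      exact h (star x * x) (mul_mem (star_mem hx) hx)
    · rw [← inner_star_right y]
      have h1 := h' (star y * y) (mul_mem (star_mem hyM) hyM)
      have e3 : ⟪ξ', star y (y ξ')⟫_ℂ = φ (star y * y * p') := h1
      rw [e3]
      -- `φ (y* y p') = φ (p x* p' x p) ≤ φ (p x* x p)`
      have e4 : star y * y * p' = (p' * x * p) * (p * star x * p') := by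
        rw [hy, star_mul, star_mul, star_star, hp.1, hp'.1]
        calc p' * (x * p) * (p * star x * p') * p' = p' * x * p * (p * star x * (p' * p')) := by
              simp only [mul_assoc]
          _ = _ := by rw [hp'.2]
      have e5 : φ (star y * y * p') = φ ((p * star x * p') * (p' * x * p)) := by
        rw [e4]
        exact hM.comm _ (mul_mem (mul_mem hpM' hx) hpM) _
          (mul_mem (mul_mem hpM (star_mem hx)) hpM')
      have e6 : φ (star x * x * p) = φ (p * star x * (x * p)) := by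
        have h2 := hM.comm (star x * x * p) (mul_mem (mul_mem (star_mem hx) hx) hpM) p hpM
        have e7 : star x * x * p * p = star x * x * p := by rw [mul_assoc, hp.2]
        rw [e7] at h2
        rw [h2]
        simp only [mul_assoc]
      have e8 : p * star x * (x * p) - (p * star x * p') * (p' * x * p) =
          star ((1 - p') * (x * p)) * ((1 - p') * (x * p)) := by
        have e9 : (1 - p') * (1 - p') = 1 - p' := by
          rw [sub_mul, mul_sub, mul_sub, hp'.2]; noncomm_ring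
        rw [star_mul, star_mul, star_sub, star_one, hp.1, hp'.1]
        calc p * star x * (x * p) - (p * star x * p') * (p' * x * p)
            = p * star x * (x * p) - p * star x * (p' * p') * (x * p) := by
              simp only [mul_assoc]
          _ = p * star x * (1 - p') * (x * p) := by rw [hp'.2]; noncomm_ring
          _ = p * star x * ((1 - p') * (1 - p')) * (x * p) := by rw [e9]
          _ = p * star x * (1 - p') * ((1 - p') * (x * p)) := by simp only [mul_assoc]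
      have h3 := hM.nonneg ((1 - p') * (x * p))
      rw [← e8, hM.sub, ← e6, ← e5] at h3
      exact sub_nonneg.1 h3
  rw [e1]
  exact (hc y hyM).trans (mul_le_mul_of_nonneg_left e2 hc0)

theorem mem_closure_of_cyc {M : VonNeumannAlgebra H} {ξ k : H} (hk : k ∈ cyc M ξ) :
    k ∈ closure {η : H | ∃ x ∈ M, η = x ξ} := by
  let S₀ : Submodule ℂ H :=
    { carrier := {η : H | ∃ x ∈ M, η = x ξ}
      add_mem' := by
        rintro _ _ ⟨x, hx, rfl⟩ ⟨y, hy, rfl⟩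
        exact ⟨x + y, add_mem hx hy, rfl⟩
      zero_mem' := ⟨0, zero_mem M, rfl⟩
      smul_mem' := by
        rintro c _ ⟨x, hx, rfl⟩
        exact ⟨c • x, SMulMemClass.smul_mem (S := StarSubalgebra ℂ (H →L[ℂ] H))
          (s := M.toStarSubalgebra) _ hx, rfl⟩ }
  have h1 : cyc M ξ ≤ S₀.topologicalClosure :=
    cyc_ind _ (Submodule.isClosed_topologicalClosure _) fun x hx =>
      Submodule.le_topologicalClosure _ ⟨x, hx, rfl⟩
  exact h1 hk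

instance (M : VonNeumannAlgebra H) (ξ : H) : CompleteSpace (cyc M ξ) :=
  (cyc_closed M ξ).completeSpace_coe

/-- The projection onto the cyclic subspace. -/
def cp (M : VonNeumannAlgebra H) (ξ : H) : H →L[ℂ] H := (cyc M ξ).starProjection

theorem cp_mem (M : VonNeumannAlgebra H) (ξ α : H) : cp M ξ α ∈ cyc M ξ :=
  Submodule.starProjection_apply_mem (cyc M ξ) α

theorem cp_inner {M : VonNeumannAlgebra H} {ξ : H} (α : H) {k : H} (hk : k ∈ cyc M ξ) :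
    ⟪k, cp M ξ α⟫_ℂ = ⟪k, α⟫_ℂ := by
  have h1 := Submodule.sub_starProjection_mem_orthogonal (K := cyc M ξ) α
  have h2 := (Submodule.mem_orthogonal _ _).1 h1 k hk
  rw [inner_sub_right, sub_eq_zero] at h2
  exact h2.symm

theorem cp_sq (M : VonNeumannAlgebra H) (ξ α : H) :
    ⟪cp M ξ α, α⟫_ℂ = ((‖cp M ξ α‖ ^ 2 : ℝ) : ℂ) := by
  rw [← cp_inner α (cp_mem M ξ α), inner_self_eq_norm_sq_to_K]
  norm_cast

/-- `‖f ξ'‖ ≤ ‖f' ξ‖` for the projections onto the cyclic subspaces of `ξ` and `ξ'`. -/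
theorem cp_le {M : VonNeumannAlgebra H} {φ : (H →L[ℂ] H) → ℂ} (hM : Fac M φ)
    {ξ ξ' : H} {p p' : H →L[ℂ] H} (hp : IsP p) (hp' : IsP p') (hpM : p ∈ M) (hpM' : p' ∈ M)
    (h : ∀ x ∈ M, ⟪ξ, x ξ⟫_ℂ = φ (x * p)) (h' : ∀ x ∈ M, ⟪ξ', x ξ'⟫_ℂ = φ (x * p')) :
    ‖cp M ξ ξ'‖ ≤ ‖cp M ξ' ξ‖ := by
  have h1 := cross_le hM hp hp' hpM hpM' h h' ‖cp M ξ' ξ‖ (norm_nonneg _) (by
    intro y hy
    have h2 := cp_inner ξ (mem_cyc M ξ' hy)
    have h3 : ⟪ξ, y ξ'⟫_ℂ = ⟪cp M ξ' ξ, y ξ'⟫_ℂ := by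
      rw [← inner_conj_symm, ← h2, inner_conj_symm]
    rw [h3]
    exact norm_inner_le_norm _ _)
  have h2 : ∀ k ∈ cyc M ξ, ‖⟪k, ξ'⟫_ℂ‖ ≤ ‖cp M ξ' ξ‖ * ‖k‖ := by
    intro k hk
    have hcl : IsClosed {k : H | ‖⟪k, ξ'⟫_ℂ‖ ≤ ‖cp M ξ' ξ‖ * ‖k‖} :=
      isClosed_le (by fun_prop) (by fun_prop)
    refine (hcl.closure_subset_iff.2 ?_) (mem_closure_of_cyc hk)
    rintro _ ⟨x, hx, rfl⟩
    exact h1 x hx
  have h3 := h2 _ (cp_mem M ξ ξ')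
  rw [cp_sq, Complex.norm_real, Real.norm_of_nonneg (sq_nonneg _)] at h3
  rcases eq_or_lt_of_le (norm_nonneg (cp M ξ ξ')) with h4 | h4
  · rw [← h4]
    exact norm_nonneg _
  · nlinarith

theorem inner_zero_symm {a b : H} (h : ⟪a, b⟫_ℂ = 0) : ⟪b, a⟫_ℂ = 0 := by
  rw [← inner_conj_symm, h, map_zero]

section bessel

variable {M : VonNeumannAlgebra H} {ι : Type} [Fintype ι] (ξ : ι → H)

theorem cyc_orth (horth : ∀ i j, i ≠ j → ∀ x ∈ M, ⟪ξ i, x (ξ j)⟫_ℂ = 0) (i j : ι) (hij : i ≠ j) :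
    ∀ k ∈ cyc M (ξ i), ∀ l ∈ cyc M (ξ j), ⟪k, l⟫_ℂ = 0 := by
  intro k hk l hl
  have h1 : ∀ x ∈ M, ⟪x (ξ j), k⟫_ℂ = 0 := by
    intro x hx
    refine inner_zero_symm (mem_orth (M := M) (ξ := ξ i) (ζ := x (ξ j)) ?_ k hk)
    intro y hy
    rw [← inner_star_right y]
    exact horth i j hij (star y * x) (mul_mem (star_mem hy) hx)
  exact inner_zero_symm (mem_orth h1 l hl)

/-- The sum of the projections. -/
theorem sum_sq (horth : ∀ i j, i ≠ j → ∀ x ∈ M, ⟪ξ i, x (ξ j)⟫_ℂ = 0) (α : H) :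
    ‖∑ i, cp M (ξ i) α‖ ^ 2 = ∑ i, ‖cp M (ξ i) α‖ ^ 2 ∧
      ⟪∑ i, cp M (ξ i) α, α⟫_ℂ = ((∑ i, ‖cp M (ξ i) α‖ ^ 2 : ℝ) : ℂ) := by
  classical
  have h2 : ⟪∑ i, cp M (ξ i) α, α⟫_ℂ = ((∑ i, ‖cp M (ξ i) α‖ ^ 2 : ℝ) : ℂ) := by
    rw [sum_inner, Complex.ofReal_sum]
    exact Finset.sum_congr rfl fun i _ => cp_sq M (ξ i) α
  refine ⟨?_, h2⟩
  have h3 : ⟪∑ i, cp M (ξ i) α, ∑ i, cp M (ξ i) α⟫_ℂ = ((∑ i, ‖cp M (ξ i) α‖ ^ 2 : ℝ) : ℂ) := by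
    rw [sum_inner, Complex.ofReal_sum]
    refine Finset.sum_congr rfl fun i _ => ?_
    rw [inner_sum, Finset.sum_eq_single i]
    · rw [inner_self_eq_norm_sq_to_K]
      norm_cast
    · intro j _ hj
      exact cyc_orth ξ horth i j (Ne.symm hj) _ (cp_mem M _ α) _ (cp_mem M _ α)
    · intro h
      exact absurd (Finset.mem_univ i) h
  have h4 : ⟪∑ i, cp M (ξ i) α, ∑ i, cp M (ξ i) α⟫_ℂ =
      ((‖∑ i, cp M (ξ i) α‖ ^ 2 : ℝ) : ℂ) := by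
    rw [inner_self_eq_norm_sq_to_K]
    norm_cast
  rw [h4] at h3
  exact Complex.ofReal_injective h3

theorem bessel (horth : ∀ i j, i ≠ j → ∀ x ∈ M, ⟪ξ i, x (ξ j)⟫_ℂ = 0) (α : H) :
    ∑ i, ‖cp M (ξ i) α‖ ^ 2 ≤ ‖α‖ ^ 2 := by
  obtain ⟨h1, h2⟩ := sum_sq ξ horth α
  have h3 : ∑ i, ‖cp M (ξ i) α‖ ^ 2 ≤ ‖∑ i, cp M (ξ i) α‖ * ‖α‖ := by
    have h4 : ‖⟪∑ i, cp M (ξ i) α, α⟫_ℂ‖ ≤ ‖∑ i, cp M (ξ i) α‖ * ‖α‖ := norm_inner_le_norm _ _
    rw [h2, Complex.norm_real, Real.norm_of_nonneg (by positivity)] at h4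
    exact h4
  rw [← h1] at h3 ⊢
  have h5 : ‖∑ i, cp M (ξ i) α‖ ≤ ‖α‖ := by
    rcases eq_or_lt_of_le (norm_nonneg (∑ i, cp M (ξ i) α)) with h6 | h6
    · rw [← h6]; exact norm_nonneg _
    · nlinarith
  exact pow_le_pow_left₀ (norm_nonneg _) h5 2

theorem parseval (horth : ∀ i j, i ≠ j → ∀ x ∈ M, ⟪ξ i, x (ξ j)⟫_ℂ = 0)
    (htot : ∀ α : H, (∀ i, ∀ x ∈ M, ⟪x (ξ i), α⟫_ℂ = 0) → α = 0) (α : H) :
    ∑ i, ‖cp M (ξ i) α‖ ^ 2 = ‖α‖ ^ 2 := by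
  classical
  have h1 := htot (α - ∑ i, cp M (ξ i) α) (by
    intro i x hx
    rw [inner_sub_right, inner_sum, Finset.sum_eq_single i]
    · rw [cp_inner α (mem_cyc M (ξ i) hx), sub_self]
    · intro j _ hj
      exact cyc_orth ξ horth i j (Ne.symm hj) _ (mem_cyc M _ hx) _ (cp_mem M _ α)
    · intro h
      exact absurd (Finset.mem_univ i) h)
  rw [sub_eq_zero] at h1
  rw [← (sum_sq ξ horth α).1, ← h1]

/-- The total family has the largest sum of squares. -/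
theorem sum_le {φ : (H →L[ℂ] H) → ℂ} (hM : Fac M φ) {κ : Type} [Fintype κ] (ξ' : κ → H)
    (P : ι → (H →L[ℂ] H)) (P' : κ → (H →L[ℂ] H)) (hP : ∀ i, P i ∈ M ∧ IsP (P i))
    (hP' : ∀ j, P' j ∈ M ∧ IsP (P' j))
    (horth : ∀ i j, i ≠ j → ∀ x ∈ M, ⟪ξ i, x (ξ j)⟫_ℂ = 0)
    (htot : ∀ α : H, (∀ i, ∀ x ∈ M, ⟪x (ξ i), α⟫_ℂ = 0) → α = 0)
    (horth' : ∀ i j, i ≠ j → ∀ x ∈ M, ⟪ξ' i, x (ξ' j)⟫_ℂ = 0)
    (h : ∀ i, ∀ x ∈ M, ⟪ξ i, x (ξ i)⟫_ℂ = φ (x * P i))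
    (h' : ∀ j, ∀ x ∈ M, ⟪ξ' j, x (ξ' j)⟫_ℂ = φ (x * P' j)) :
    ∑ j, (φ (P' j)).re ≤ ∑ i, (φ (P i)).re := by
  have hn : ∀ i, (φ (P i)).re = ‖ξ i‖ ^ 2 := by
    intro i
    have h1 := h i 1 (one_mem _)
    rw [one_mul, one_apply_eq_self, inner_self_eq_norm_sq_to_K] at h1
    rw [← h1]
    norm_cast
  have hn' : ∀ j, (φ (P' j)).re = ‖ξ' j‖ ^ 2 := by
    intro j
    have h1 := h' j 1 (one_mem _)
    rw [one_mul, one_apply_eq_self, inner_self_eq_norm_sq_to_K] at h1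
    rw [← h1]
    norm_cast
  calc ∑ j, (φ (P' j)).re = ∑ j, ∑ i, ‖cp M (ξ i) (ξ' j)‖ ^ 2 :=
        Finset.sum_congr rfl fun j _ => by rw [hn', parseval ξ horth htot]
    _ ≤ ∑ j, ∑ i, ‖cp M (ξ' j) (ξ i)‖ ^ 2 := by
        refine Finset.sum_le_sum fun j _ => Finset.sum_le_sum fun i _ => ?_
        exact pow_le_pow_left₀ (norm_nonneg _)
          (cp_le hM (hP i).2 (hP' j).2 (hP i).1 (hP' j).1 (h i) (h' j)) 2
    _ = ∑ i, ∑ j, ‖cp M (ξ' j) (ξ i)‖ ^ 2 := Finset.sum_comm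
    _ ≤ ∑ i, ‖ξ i‖ ^ 2 := Finset.sum_le_sum fun i _ => bessel ξ' horth' (ξ i)
    _ = ∑ i, (φ (P i)).re := Finset.sum_congr rfl fun i _ => (hn i).symm

end bessel

end Pool.Agent.U107.CC
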