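import Mathlib
import Pool.Agent.U107.CC.Right

/-!
Coupling constants of close II₁ factors: transfer of standard families of vectors.
-/

set_option autoImplicit false
set_option linter.unusedSectionVars false

open scoped ComplexOrder InnerProductSpace ComplexConjugate
open Filter Topology

noncomputable section

namespace Pool.Agent.U107.CC

variable {H : Type} [NormedAddCommGroup H] [InnerProductSpace ℂ H] [CompleteSpace H]

/-- A masa `A` of `M` contained in a nearby algebra `N₂` is a masa of `N₂`. -/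
theorem masa_of_near {M N₂ A : VonNeumannAlgebra H} (hAM : ∀ a ∈ A, a ∈ M)
    (hA : ∀ a ∈ A, ∀ b ∈ A, a * b = b * a)
    (hmasa : ∀ x ∈ M, (∀ a ∈ A, a * x = x * a) → x ∈ A) (hAN : ∀ a ∈ A, a ∈ N₂)
    (hn : Near N₂ M (1 / 2)) : ∀ y ∈ N₂, (∀ a ∈ A, a * y = y * a) → y ∈ A := by
  let _ := symGroup A hA
  obtain ⟨μ⟩ := exists_mean (Sym A) (fun s => Subtype.ext s.2.2.2) H
  have hmul : ∀ s t : Sym A, (s * t).1 = s.1 * t.1 := fun _ _ => rfl
  have hsn : ∀ s : Sym A, ‖s.1‖ ≤ 1 := fun s =>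
    IsU.norm_le ⟨by rw [s.2.2.1, s.2.2.2], by rw [s.2.2.1, s.2.2.2]⟩
  -- approximation
  have happ : ∀ y ∈ N₂, (∀ a ∈ A, a * y = y * a) → ∃ a ∈ A, ‖a - y‖ ≤ 1 / 2 * ‖y‖ := by
    intro y hy hya
    obtain ⟨x, hx, hxy⟩ := hn.scale y hy
    have hB : Bd fun s : Sym A => s.1 * x * s.1 := ⟨‖x‖, fun s => by
      have h1 := norm_mul_le' (norm_mul_le' (hsn s) (le_refl ‖x‖)) (hsn s)
      simpa using h1⟩
    refine ⟨μ.m (fun s : Sym A => s.1 * x * s.1), ?_, ?_⟩
    · refine hmasa _ (μ.mem M _ hB fun s => mul_mem (mul_mem (hAM _ s.2.1) hx) (hAM _ s.2.1)) ?_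
      refine comm_of_sym A hA _ fun t ht h1 h2 => ?_
      let t' : Sym A := ⟨t, ht, h1, h2⟩
      have e1 := μ.trans (fun s : Sym A => s.1 * x * s.1) t' hB
      have e2 : (fun s : Sym A => (s * t').1 * x * (s * t').1) =
          fun s : Sym A => t * (s.1 * x * s.1) * t := by
        funext s
        rw [hmul]
        change s.1 * t * x * (s.1 * t) = t * (s.1 * x * s.1) * t
        rw [hA _ s.2.1 _ ht]
        simp only [mul_assoc]
        rw [hA _ ht _ s.2.1]
      rw [e2, μ.mul _ _ _ hB] at e1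
      obtain ⟨x', hx'⟩ : ∃ x', x' = μ.m (fun s : Sym A => s.1 * x * s.1) := ⟨_, rfl⟩
      rw [← hx'] at e1 ⊢
      calc t * x' = t * x' * (t * t) := by rw [h2, mul_one]
        _ = (t * x' * t) * t := by simp only [mul_assoc]
        _ = x' * t := by rw [e1]
    · refine μ.near _ _ _ fun s => ?_
      have e : s.1 * x * s.1 - y = s.1 * (x - y) * s.1 := by
        rw [mul_sub, sub_mul, hya _ s.2.1, mul_assoc y, s.2.2.2, mul_one]
      rw [e]
      have h1 := norm_mul_le' (norm_mul_le' (hsn s) hxy) (hsn s)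
      simpa using h1
  intro y hy hya
  have hcl := isClosed_vn A
  have hne : (A : Set (H →L[ℂ] H)).Nonempty := ⟨0, zero_mem A⟩
  have h0 : Metric.infDist y (A : Set (H →L[ℂ] H)) = 0 := by
    by_contra hd
    have hd' : 0 < Metric.infDist y (A : Set (H →L[ℂ] H)) :=
      lt_of_le_of_ne Metric.infDist_nonneg (Ne.symm hd)
    obtain ⟨a, ha, hay⟩ := (Metric.infDist_lt_iff hne).1
      (show Metric.infDist y (A : Set (H →L[ℂ] H)) < 2 * Metric.infDist y (A : Set (H →L[ℂ] H))
        by linarith)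
    have haA : a ∈ A := ha
    obtain ⟨b, hb, hbn⟩ := happ (y - a) (sub_mem hy (hAN a haA)) (fun c hc => by
      rw [mul_sub, sub_mul, hya c hc, hA c hc a haA])
    have h1 : Metric.infDist y (A : Set (H →L[ℂ] H)) ≤ dist y (a + b) :=
      Metric.infDist_le_dist_of_mem (show a + b ∈ A from add_mem haA hb)
    have h2 : dist y (a + b) ≤ 1 / 2 * dist y a := by
      rw [dist_eq_norm, dist_eq_norm]
      have e : y - (a + b) = -(b - (y - a)) := by abel
      rw [e, norm_neg]
      exact hbn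
    linarith
  exact (hcl.mem_iff_infDist_zero hne).2 h0

/-- The main transfer theorem. -/
theorem transfer_family {M N : VonNeumannAlgebra H} {φ ψ : (H →L[ℂ] H) → ℂ} (hM : Fac M φ)
    (hN : Fac N ψ) {δ : ℝ} (hδ : 0 ≤ δ) (hδ1 : δ ≤ 1 / 10 ^ 18) (hMN : Near M N δ)
    (hNM : Near N M δ) {ι : Type} (ξ : ι → H) (p : H →L[ℂ] H) (hpM : p ∈ M) (hp : IsP p)
    (P : ι → (H →L[ℂ] H)) (hP : ∀ j, P j = 1 ∨ P j = p)
    (hvec : ∀ j, ∀ x ∈ M, ⟪ξ j, x (ξ j)⟫_ℂ = φ (x * P j))
    (horth : ∀ i j, i ≠ j → ∀ x ∈ M, ⟪ξ i, x (ξ j)⟫_ℂ = 0) :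
    ∃ w : H →L[ℂ] H, IsU w ∧ w * p * star w ∈ N ∧ ψ (w * p * star w) = φ p ∧
      (∀ j, ∀ y ∈ N, ⟪w (ξ j), y (w (ξ j))⟫_ℂ = ψ (y * (w * P j * star w))) ∧
      ∀ i j, i ≠ j → ∀ y ∈ N, ⟪w (ξ i), y (w (ξ j))⟫_ℂ = 0 := by
  -- the masa
  obtain ⟨A, hAM, hpA, hA, hmasa⟩ := exists_masa M p hpM hp.1
  have hPA : ∀ j, P j ∈ A := by
    intro j
    rcases hP j with h | h <;> rw [h]
    · exact one_mem A
    · exact hpA
  -- first conjugation
  obtain ⟨w₁, hw₁, hw₁n, hw₁A, _⟩ := perturb_ab N A hA δ hδ (hδ1.trans (by norm_num))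
    (fun x hx h => hMN x (hAM x hx) h)
  -- the right multiplications
  obtain ⟨v, hvM, hvs, hvξ, hv0, hvc⟩ := exists_right hM hAM hA ξ P hPA hvec horth
  obtain ⟨B, hBM, hvB, hB, _⟩ := exists_ab M.commutant
    (Set.range fun q : ι × Sym A => v q.1 q.2) (by
      rintro _ ⟨q, rfl⟩
      exact ⟨hvM _ _, hvs _ _⟩) (by
      rintro _ ⟨q, rfl⟩ _ ⟨r, rfl⟩
      exact hvc _ _ _ _)
  -- second conjugation
  obtain ⟨γ, hγ⟩ : ∃ γ, γ = KK * (2 * δ) + 600 * δ := ⟨_, rfl⟩
  have hγ0 : 0 ≤ γ := by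
    rw [hγ]
    have : (0 : ℝ) ≤ KK := by unfold KK; norm_num
    positivity
  have hγ1 : γ ≤ 1 / 100000 := by
    rw [hγ]
    unfold KK
    have : (216 * 2 ^ 23 * (2 * δ) + 600 * δ : ℝ) = (216 * 2 ^ 24 + 600) * δ := by ring
    rw [this]
    calc ((216 * 2 ^ 24 + 600) * δ : ℝ) ≤ (216 * 2 ^ 24 + 600) * (1 / 10 ^ 18) :=
          mul_le_mul_of_nonneg_left hδ1 (by norm_num)
      _ ≤ 1 / 100000 := by norm_num
  have hB1 : ∀ x ∈ B, ‖x‖ ≤ 1 → ∃ y ∈ (cj w₁ N).commutant, ‖y - x‖ ≤ γ := by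
    intro x hx hx1
    obtain ⟨t, ht, htn⟩ := hN.near_commutant hδ hNM x (hBM x hx) hx1
    refine ⟨star w₁ * t * w₁, ?_, ?_⟩
    · rw [mem_cj_commutant hw₁]
      have e : w₁ * (star w₁ * t * w₁) * star w₁ = t := by
        calc w₁ * (star w₁ * t * w₁) * star w₁ = (w₁ * star w₁) * t * (w₁ * star w₁) := by
              simp only [mul_assoc]
          _ = t := by rw [hw₁.2, one_mul, mul_one]
      rwa [e]
    · have e : star w₁ * t * w₁ - x = star w₁ * (t - x) * w₁ - (x - star w₁ * x * w₁) := by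
        noncomm_ring
      rw [e]
      have h1 : ‖star w₁ * (t - x) * w₁‖ ≤ KK * (2 * δ) := by
        have := norm_mul_le' (norm_mul_le' hw₁.adj.norm_le htn) hw₁.norm_le
        simpa using this
      have h2 : ‖x - star w₁ * x * w₁‖ ≤ 600 * δ := by
        have h3 := conj_near hw₁.adj x
        rw [star_star] at h3
        have h4 : ‖star w₁ - 1‖ = ‖w₁ - 1‖ := by
          rw [← norm_star (w₁ - 1), star_sub, star_one]
        rw [h4] at h3
        have h5 : 2 * ‖w₁ - 1‖ * ‖x‖ ≤ 2 * ‖w₁ - 1‖ * 1 :=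
          mul_le_mul_of_nonneg_left hx1 (by positivity)
        linarith
      refine (norm_sub_le _ _).trans ?_
      rw [hγ]
      linarith
  obtain ⟨w₂, hw₂, hw₂n, hw₂B, hw₂c⟩ := perturb_ab (cj w₁ N).commutant B hB γ hγ0
    (hγ1.trans (by norm_num)) hB1
  have hAN₁ : ∀ a ∈ A, a ∈ cj w₁ N := fun a ha => (mem_cj hw₁).2 (hw₁A a ha)
  have hw₂A : ∀ a ∈ A, w₂ * a = a * w₂ := by
    intro a ha
    refine hw₂c a ?_ ?_
    · intro x hx
      exact (VonNeumannAlgebra.mem_commutant_iff.1 hx a (hAN₁ a ha)).symm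
    · intro x hx
      exact (VonNeumannAlgebra.mem_commutant_iff.1 (hBM x hx) a (hAM a ha)).symm
  -- the total conjugation
  obtain ⟨w, hwdef⟩ : ∃ w, w = w₁ * w₂ := ⟨_, rfl⟩
  have hw : IsU w := by rw [hwdef]; exact hw₁.mul hw₂
  have hwn : ‖w - 1‖ ≤ 1 / 300 := by
    have e : w - 1 = w₁ * (w₂ - 1) + (w₁ - 1) := by rw [hwdef]; noncomm_ring
    rw [e]
    have h1 := norm_mul_le' hw₁.norm_le hw₂n
    have h2 := norm_add_le (w₁ * (w₂ - 1)) (w₁ - 1)
    have h3 : δ ≤ 1 / 10 ^ 6 := hδ1.trans (by norm_num)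
    norm_num at h3
    linarith
  have hAN : ∀ a ∈ A, a ∈ cj w N := by
    intro a ha
    rw [mem_cj hw]
    have e : w * a * star w = w₁ * a * star w₁ := by
      calc w * a * star w = w₁ * (w₂ * a) * star w₂ * star w₁ := by
            rw [hwdef, star_mul]; simp only [mul_assoc]
        _ = w₁ * (a * (w₂ * star w₂)) * star w₁ := by rw [hw₂A a ha]; simp only [mul_assoc]
        _ = w₁ * a * star w₁ := by rw [hw₂.2, mul_one]
    rw [e]
    exact hw₁A a ha
  have hBN : ∀ b ∈ B, b ∈ (cj w N).commutant := by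
    intro b hb
    rw [mem_cj_commutant hw]
    have h1 := (mem_cj_commutant hw₁).1 (hw₂B b hb)
    have e : w * b * star w = w₁ * (w₂ * b * star w₂) * star w₁ := by
      rw [hwdef, star_mul]; simp only [mul_assoc]
    rwa [e]
  have hnear₂ : Near (cj w N) M (1 / 2) := by
    intro y hy hy1
    have hy' := (mem_cj hw).1 hy
    obtain ⟨x, hx, hxn⟩ := hNM _ hy' ((norm_conj_le hw).trans hy1)
    refine ⟨x, hx, ?_⟩
    have e : x - y = (x - w * y * star w) - (y - w * y * star w) := by abel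
    rw [e]
    have h1 := conj_near hw y
    have h2 : 2 * ‖w - 1‖ * ‖y‖ ≤ 2 * ‖w - 1‖ * 1 :=
      mul_le_mul_of_nonneg_left hy1 (by positivity)
    refine (norm_sub_le _ _).trans ?_
    have h3 : δ ≤ 1 / 10 ^ 6 := hδ1.trans (by norm_num)
    norm_num at h3
    linarith
  have hmasa₂ := masa_of_near hAM hA hmasa hAN hnear₂
  -- the traces agree on `A`
  have hproj : ∀ q ∈ A, IsP q → φ q = ψ (w * q * star w) := by
    intro q hq hqP
    refine trace_eq hM hN hδ ?_ hMN hqP (hqP.conj hw) (hAM q hq) ((mem_cj hw).1 (hAN q hq)) ?_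
    · calc 600 * δ ≤ 600 * (1 / 10 ^ 18) := mul_le_mul_of_nonneg_left hδ1 (by norm_num)
        _ ≤ 1 / 20 := by norm_num
    · have h1 := conj_near hw q
      have h2 : 2 * ‖w - 1‖ * ‖q‖ ≤ 2 * ‖w - 1‖ * 1 :=
        mul_le_mul_of_nonneg_left hqP.norm_le (by positivity)
      linarith
  have htr : ∀ z ∈ A, φ z = ψ (w * z * star w) := by
    intro z hz
    have hsmall : ∀ ε : ℝ, 0 < ε → ‖φ z - ψ (w * z * star w)‖ ≤ ε := by
      intro ε hε
      obtain ⟨n, c, q, hq, hqn⟩ := ab_span A hA z hz (ε / 2) (by positivity)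
      obtain ⟨S, hS⟩ : ∃ S, S = ∑ k, c k • q k := ⟨_, rfl⟩
      rw [← hS] at hqn
      have hSS : φ S = ψ (w * S * star w) := by
        rw [hS, hM.sum, Finset.mul_sum, Finset.sum_mul, hN.sum]
        refine Finset.sum_congr rfl fun k _ => ?_
        rw [hM.smul, mul_smul_comm, smul_mul_assoc, hN.smul,
          hproj _ (hq k).1 ⟨(hq k).2.1, (hq k).2.2⟩]
      have e : φ z - ψ (w * z * star w) = φ (z - S) - ψ (w * (z - S) * star w) := by
        rw [hM.sub, mul_sub, sub_mul, hN.sub, hSS]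
        ring
      rw [e]
      have h1 := hM.bound (z - S)
      have h2 := (hN.bound (w * (z - S) * star w)).trans (norm_conj_le hw)
      have h3 := norm_sub_le (φ (z - S)) (ψ (w * (z - S) * star w))
      linarith
    have h0 : ‖φ z - ψ (w * z * star w)‖ ≤ 0 := le_of_forall_pos_le_add fun ε hε => by
      rw [zero_add]
      exact hsmall ε hε
    exact sub_eq_zero.1 (norm_le_zero_iff.1 h0)
  -- the vector states
  have hone : star (1 : H →L[ℂ] H) = 1 := star_one _
  have hvN : ∀ j u, v j u ∈ (cj w N).commutant := fun j u => hBN _ (hvB _ ⟨(j, u), rfl⟩)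
  have hst : ∀ j, ∀ y ∈ cj w N, ⟪ξ j, y (ξ j)⟫_ℂ = ψ (w * y * P j * star w) := by
    let _ := symGroup A hA
    obtain ⟨μ⟩ := exists_mean (Sym A) (fun s => Subtype.ext s.2.2.2) H
    have hsmul : ∀ s t : Sym A, (s * t).1 = s.1 * t.1 := fun _ _ => rfl
    have hsn : ∀ s : Sym A, ‖s.1‖ ≤ 1 := fun s =>
      IsU.norm_le ⟨by rw [s.2.2.1, s.2.2.2], by rw [s.2.2.1, s.2.2.2]⟩
    intro j y hy
    have hyB : Bd fun s : Sym A => s.1 * y * s.1 := ⟨‖y‖, fun s => by
      have h1 := norm_mul_le' (norm_mul_le' (hsn s) (le_refl ‖y‖)) (hsn s)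
      simpa using h1⟩
    obtain ⟨z, hz⟩ : ∃ z, z = μ.m (fun s : Sym A => s.1 * y * s.1) := ⟨_, rfl⟩
    have hzN : z ∈ cj w N := by
      rw [hz]
      exact μ.mem _ _ hyB fun s => mul_mem (mul_mem (hAN _ s.2.1) hy) (hAN _ s.2.1)
    have hzA : z ∈ A := by
      refine hmasa₂ z hzN (comm_of_sym A hA _ fun t ht h1 h2 => ?_)
      let t' : Sym A := ⟨t, ht, h1, h2⟩
      have e1 := μ.trans (fun s : Sym A => s.1 * y * s.1) t' hyB
      have e2 : (fun s : Sym A => (s * t').1 * y * (s * t').1) =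
          fun s : Sym A => t * (s.1 * y * s.1) * t := by
        funext s
        rw [hsmul]
        change s.1 * t * y * (s.1 * t) = t * (s.1 * y * s.1) * t
        rw [hA _ s.2.1 _ ht]
        simp only [mul_assoc]
        rw [hA _ ht _ s.2.1]
      rw [e2, μ.mul _ _ _ hyB, ← hz] at e1
      calc t * z = t * z * (t * t) := by rw [h2, mul_one]
        _ = (t * z * t) * t := by simp only [mul_assoc]
        _ = z * t := by rw [e1]
    -- first: invariance of the vector state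
    have h1 : ⟪ξ j, z (ξ j)⟫_ℂ = ⟪ξ j, y (ξ j)⟫_ℂ := by
      rw [hz]
      refine μ.vec _ _ _ _ hyB fun s => ?_
      have hs1 : v j s (ξ j) = s.1 (ξ j) := hvξ j s
      have hcy : ∀ α, y (v j s α) = v j s (y α) := by
        intro α
        have := VonNeumannAlgebra.mem_commutant_iff.1 (hvN j s) y hy
        exact congrArg (fun T : H →L[ℂ] H => T α) this
      have hcs : ∀ α, s.1 (v j s α) = v j s (s.1 α) := by
        intro α
        have := VonNeumannAlgebra.mem_commutant_iff.1 (hvM j s) s.1 (hAM _ s.2.1)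
        exact congrArg (fun T : H →L[ℂ] H => T α) this
      have hvv : v j s (v j s (ξ j)) = ξ j := by
        rw [hs1, ← hcs, hs1]
        have : (s.1 * s.1) (ξ j) = ξ j := by rw [s.2.2.2]; rfl
        exact this
      change ⟪ξ j, s.1 (y (s.1 (ξ j)))⟫_ℂ = _
      calc ⟪ξ j, s.1 (y (s.1 (ξ j)))⟫_ℂ = ⟪s.1 (ξ j), y (s.1 (ξ j))⟫_ℂ := by
            rw [← inner_star_left s.1, s.2.2.1]
        _ = ⟪v j s (ξ j), y (v j s (ξ j))⟫_ℂ := by rw [hs1]
        _ = ⟪v j s (ξ j), v j s (y (ξ j))⟫_ℂ := by rw [hcy]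
        _ = ⟪v j s (v j s (ξ j)), y (ξ j)⟫_ℂ := by rw [← inner_star_left (v j s), hvs]
        _ = ⟪ξ j, y (ξ j)⟫_ℂ := by rw [hvv]
    -- second: the state on `A`
    have h2 : ⟪ξ j, z (ξ j)⟫_ℂ = ψ (w * (z * P j) * star w) := by
      rw [hvec j z (hAM z hzA), htr _ (mul_mem hzA (hPA j))]
    -- third: the trace of `N`
    have h3 : ψ (w * (z * P j) * star w) = ψ (w * y * P j * star w) := by
      obtain ⟨ζ, hζ, hψ⟩ := hN.seq
      have e1 : w * (z * P j) * star w =
          μ.m (fun s : Sym A => w * (s.1 * y * s.1) * (P j * star w)) := by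
        rw [μ.mul _ _ _ hyB, ← hz]
        simp only [mul_assoc]
      rw [e1, hψ]
      refine μ.normal ζ hζ _ _ (((Bd.const w).mul hyB).mul (Bd.const _)) fun s => ?_
      rw [← hψ]
      have hsN : w * s.1 * star w ∈ N := (mem_cj hw).1 (hAN _ s.2.1)
      have hyN : w * (y * s.1 * P j) * star w ∈ N :=
        (mem_cj hw).1 (mul_mem (mul_mem hy (hAN _ s.2.1)) (hAN _ (hPA j)))
      have e2 : w * (s.1 * y * s.1) * (P j * star w) =
          (w * s.1 * star w) * (w * (y * s.1 * P j) * star w) := by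
        calc w * (s.1 * y * s.1) * (P j * star w)
            = w * s.1 * (y * s.1 * P j) * star w := by simp only [mul_assoc]
          _ = w * s.1 * ((star w * w) * (y * s.1 * P j)) * star w := by rw [hw.1, one_mul]
          _ = (w * s.1 * star w) * (w * (y * s.1 * P j) * star w) := by simp only [mul_assoc]
      have e3 : (w * (y * s.1 * P j) * star w) * (w * s.1 * star w) = w * y * P j * star w := by
        calc (w * (y * s.1 * P j) * star w) * (w * s.1 * star w)
            = w * (y * s.1 * P j) * (star w * w) * s.1 * star w := by simp only [mul_assoc]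
          _ = w * y * (s.1 * (P j * s.1)) * star w := by rw [hw.1, mul_one]; simp only [mul_assoc]
          _ = w * y * (s.1 * s.1 * P j) * star w := by
              rw [hA _ (hPA j) _ s.2.1]; simp only [mul_assoc]
          _ = w * y * P j * star w := by rw [s.2.2.2, one_mul]
      rw [e2, hN.comm _ hsN _ hyN, e3]
    rw [← h1, h2, h3]
  refine ⟨w, hw, (mem_cj hw).1 (hAN p hpA), (hproj p hpA hp).symm, ?_, ?_⟩
  · intro j y hy
    have hy2 : star w * y * w ∈ cj w N := by
      rw [mem_cj hw]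
      have e : w * (star w * y * w) * star w = y := by
        calc w * (star w * y * w) * star w = (w * star w) * y * (w * star w) := by
              simp only [mul_assoc]
          _ = y := by rw [hw.2, one_mul, mul_one]
      rwa [e]
    have h1 := hst j _ hy2
    have h2 : ⟪w (ξ j), y (w (ξ j))⟫_ℂ = ⟪ξ j, (star w * y * w) (ξ j)⟫_ℂ := by
      change _ = ⟪ξ j, star w (y (w (ξ j)))⟫_ℂ
      rw [inner_star_right]
    rw [h2, h1]
    congr 1
    calc w * (star w * y * w) * P j * star w = (w * star w) * y * w * P j * star w := by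
          simp only [mul_assoc]
      _ = y * (w * P j * star w) := by rw [hw.2, one_mul]; simp only [mul_assoc]
  · intro i j hij y hy
    have hy2 : star w * y * w ∈ cj w N := by
      rw [mem_cj hw]
      have e : w * (star w * y * w) * star w = y := by
        calc w * (star w * y * w) * star w = (w * star w) * y * (w * star w) := by
              simp only [mul_assoc]
          _ = y := by rw [hw.2, one_mul, mul_one]
      rwa [e]
    have h2 : ⟪w (ξ i), y (w (ξ j))⟫_ℂ = ⟪ξ i, (star w * y * w) (ξ j)⟫_ℂ := by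
      change _ = ⟪ξ i, star w (y (w (ξ j)))⟫_ℂ
      rw [inner_star_right]
    let u : Sym A := ⟨1, one_mem A, star_one _, one_mul _⟩
    have h3 : v j u (ξ j) = ξ j := by rw [hvξ]; rfl
    have h4 : v j u (ξ i) = 0 := hv0 i j u hij
    have h5 := VonNeumannAlgebra.mem_commutant_iff.1 (hvN j u) _ hy2
    have h6 : (star w * y * w) (v j u (ξ j)) = v j u ((star w * y * w) (ξ j)) :=
      congrArg (fun T : H →L[ℂ] H => T (ξ j)) h5
    rw [h2, ← h3, h6, ← inner_star_left (v j u), hvs, h4, inner_zero_left]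

end Pool.Agent.U107.CC
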